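import Mathlib
import Pool.Agent.H906R3.YM.Conc
import Pool.Agent.W793.YM.Inf
import Pool.Agent.W793.YM.Rebase
import Pool.Agent.TH618.YM.Cartan
import Pool.Agent.Run7.h897.Tor

/-!
# Lattice Yang-Mills theory: the continuum limit at polynomially small lattice spacing

Wilson's lattice gauge theory in dimension `d ≥ 3` with gauge group any closed subgroup `G` of
`U(N)`, on the lattice of spacing `1 / q`, at an inverse coupling `β q ≥ q ^ (60 d + 88)`, in any
infinite volume limit `ν q`. The curvature is transported to the origin along arbitrary reference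
paths whose lengths are at most `q ^ 5` times the distance, multiplied by `√β q ^ (d / 2)` and
smeared with a continuous two form `f` of compact support with values in the Lie algebra. As
`q → ∞` the law of this random field converges (convergence of the characteristic functional) to
the free Maxwell field on `ℝ^d` with values in the Lie algebra: the characteristic functional tends
to `exp (- ‖P f‖ ^ 2 / 2)`, `P` being the orthogonal projection of the square integrable two forms
onto the closure of the exact ones.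
-/

open MeasureTheory Matrix Filter
open scoped Matrix.Norms.Frobenius Topology ContDiff

namespace Pool.Agent.Run7.h897.kept.FreeMaxwellLimit

set_option linter.unusedSectionVars false

noncomputable section

/-- Complex `N × N` matrices. -/
abbrev Mt (N : ℕ) := Matrix (Fin N) (Fin N) ℂ

/-- The unitary group `U(N)`. -/
abbrev UU (N : ℕ) := Matrix.unitaryGroup (Fin N) ℂ

/-- The matrix of an element of a subgroup of `U(N)`. -/
def mt {N : ℕ} {G : Subgroup (UU N)} (g : G) : Mt N := ((g : UU N) : Mt N)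

/-- The Lie algebra of `G`: the real space spanned by all matrices `Y` with `exp (t Y) ∈ G` for all
real `t`. -/
def lieAlg {N : ℕ} (G : Subgroup (UU N)) : Submodule ℝ (Mt N) :=
  Submodule.span ℝ {Y : Mt N | ∀ t : ℝ, ∃ g : G, mt g = NormedSpace.exp (t • Y)}

/-- Links of the periodic lattice `(ℤ/l)^d`: base point and direction. -/
abbrev Link (d l : ℕ) := (Fin d → ZMod l) × Fin d

/-- Links of the lattice `ℤ^d`: base point and direction. -/
abbrev LinkZ (d : ℕ) := (Fin d → ℤ) × Fin d

section

variable {N d l : ℕ} {G : Subgroup (UU N)}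

/-- The product of the link variables around the plaquette at `x` in the directions `i`, `j`. -/
def plaq (U : Link d l → G) (x : Fin d → ZMod l) (i j : Fin d) : G :=
  U (x, i) * U (x + Pi.single i 1, j) * (U (x + Pi.single j 1, i))⁻¹ * (U (x, j))⁻¹

/-- The Wilson action `∑_p Re tr (1 - U_p)`, the sum over the plaquettes. -/
def action [NeZero l] (U : Link d l → G) : ℝ :=
  ∑ x : Fin d → ZMod l, ∑ i : Fin d, ∑ j : Fin d,
    if i < j then (trace (1 - mt (plaq U x i j))).re else 0

/-- The periodic extension of a configuration. -/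
def per (U : Link d l → G) : LinkZ d → G := fun e => U (fun i => (e.1 i : ZMod l), e.2)

/-- The expectation of `F` in the lattice Yang-Mills theory on `(ℤ/l)^d`, `μ` being the Haar
measure. -/
def expect (l : ℕ) [NeZero l] [MeasurableSpace G] (μ : Measure G) (β : ℝ)
    (F : (LinkZ d → G) → ℝ) : ℝ :=
  (∫ U : Link d l → G, F (per U) * Real.exp (-(β * action U)) ∂(Measure.pi fun _ => μ)) /
    ∫ U : Link d l → G, Real.exp (-(β * action U)) ∂(Measure.pi fun _ => μ)

/-- `ν` is an infinite volume limit (weak limit along a subsequence) of the theories on the tori of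
even side at inverse coupling `β`. -/
structure IsInfVol [MeasurableSpace G] (μ : Measure G) (β : ℝ)
    (ν : Measure (LinkZ d → G)) : Prop where
  prob : IsProbabilityMeasure ν
  lim : ∃ s : ℕ → ℕ, Tendsto s atTop atTop ∧ ∀ F : (LinkZ d → G) → ℝ, Continuous F →
    Tendsto (fun j => expect (2 * (s j + 1)) μ β F) atTop (𝓝 (∫ V, F V ∂ν))

/-- The transport along the lattice path from `x` with the given list of steps; a step is a
direction and a sense, `true` for forwards and `false` for backwards. -/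
def hol (V : LinkZ d → G) : (Fin d → ℤ) → List (Fin d × Bool) → G
  | _, [] => 1
  | x, (i, true) :: p => V (x, i) * hol V (x + Pi.single i 1) p
  | x, (i, false) :: p => (V (x - Pi.single i 1, i))⁻¹ * hol V (x - Pi.single i 1) p

/-- The end point of the lattice path from `x` with the given list of steps. -/
def dest : (Fin d → ℤ) → List (Fin d × Bool) → (Fin d → ℤ)
  | x, [] => x
  | x, (i, true) :: p => dest (x + Pi.single i 1) p
  | x, (i, false) :: p => dest (x - Pi.single i 1) p

/-- The product of the link variables around the plaquette of `ℤ^d` at `x` in the directions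
`i`, `j`. -/
def plaqZ (V : LinkZ d → G) (x : Fin d → ℤ) (i j : Fin d) : G :=
  V (x, i) * V (x + Pi.single i 1, j) * (V (x + Pi.single j 1, i))⁻¹ * (V (x, j))⁻¹

/-- The plaquette variable at `x`, transported to the origin along the path `γ x`. -/
def curv (γ : (Fin d → ℤ) → List (Fin d × Bool)) (V : LinkZ d → G) (x : Fin d → ℤ)
    (i j : Fin d) : Mt N := mt (hol V 0 (γ x) * plaqZ V x i j * (hol V 0 (γ x))⁻¹)

/-- The scalar product of two forms at one point. -/
def dot (f g : Fin d → Fin d → Mt N) : ℝ :=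
  ∑ i, ∑ j, if i < j then (trace ((f i j)ᴴ * g i j)).re else 0

/-- The curvature field on the lattice of spacing `1 / q`, scaled by `√β q ^ (d / 2)` and smeared
with the two form `f`: `√β q ^ (-d / 2) ∑_x ∑_{i < j} Re tr (f_ij(x / q)^* U_p(x))`. -/
def field (β : ℝ) (q : ℕ) (γ : (Fin d → ℤ) → List (Fin d × Bool))
    (f : Fin d → Fin d → (Fin d → ℝ) → Mt N) (V : LinkZ d → G) : ℝ :=
  Real.sqrt β * (1 / Real.sqrt q) ^ d *
    ∑' x : Fin d → ℤ, dot (fun i j => f i j fun k => (x k : ℝ) / q) (curv γ V x)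

variable (G) in
/-- Test forms: continuous two forms of compact support with values in the Lie algebra of `G`. -/
structure IsTest (f : Fin d → Fin d → (Fin d → ℝ) → Mt N) : Prop where
  cont : ∀ i j, Continuous (f i j)
  supp : ∀ i j, HasCompactSupport (f i j)
  anti : ∀ i j x, f i j x = -f j i x
  val : ∀ i j x, f i j x ∈ lieAlg G

/-- The exterior derivative of a one form. -/
def extDer (A : Fin d → (Fin d → ℝ) → Mt N) (x : Fin d → ℝ) (i j : Fin d) : Mt N :=
  fderiv ℝ (A j) x (Pi.single i 1) - fderiv ℝ (A i) x (Pi.single j 1)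

variable (G) in
/-- The squared norm of the projection of `f` onto the closure of the exact forms in `L²`:
`‖P f‖² = sup_A (2 ⟨f, dA⟩ - ‖dA‖²)`, the supremum over the smooth one forms `A` of compact support
with values in the Lie algebra of `G`. -/
def exactPart (f : Fin d → Fin d → (Fin d → ℝ) → Mt N) : ℝ :=
  sSup {r : ℝ | ∃ A : Fin d → (Fin d → ℝ) → Mt N,
    (∀ i, ContDiff ℝ ∞ (A i) ∧ HasCompactSupport (A i) ∧ ∀ x, A i x ∈ lieAlg G) ∧
    r = 2 * (∫ x, dot (fun i j => f i j x) (extDer A x)) - ∫ x, dot (extDer A x) (extDer A x)}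

end

open Pool.Agent.H906R3 Pool.Agent.W793 Pool.Agent.TH618 Pool.Agent.Run7

variable {N n d l : ℕ} {G : Subgroup (UU N)}

/-- A Haar probability measure is invariant under right multiplications. -/
lemma right_inv {H : Type*} [Group H] [TopologicalSpace H] [IsTopologicalGroup H]
    [CompactSpace H] [MeasurableSpace H] [BorelSpace H] (μ : Measure H)
    [IsProbabilityMeasure μ] [μ.IsHaarMeasure] : μ.IsMulRightInvariant := by
  refine ⟨fun g => ?_⟩
  have h1 : IsProbabilityMeasure (Measure.map (fun x => x * g) μ) :=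
    Measure.isProbabilityMeasure_map (measurable_mul_const g).aemeasurable
  exact Measure.isHaarMeasure_eq_of_isProbabilityMeasure _ _

/-- A Haar probability measure is invariant under the inversion. -/
lemma inv_inv' {H : Type*} [Group H] [TopologicalSpace H] [IsTopologicalGroup H]
    [CompactSpace H] [MeasurableSpace H] [BorelSpace H] (μ : Measure H)
    [IsProbabilityMeasure μ] [μ.IsHaarMeasure] : μ.IsInvInvariant := by
  have hr := right_inv μ
  refine ⟨?_⟩
  have h1 : IsProbabilityMeasure μ.inv :=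
    Measure.isProbabilityMeasure_map measurable_inv.aemeasurable
  have h2 : μ.inv.IsMulLeftInvariant := inferInstance
  have h3 : μ.inv.IsHaarMeasure :=
    Measure.isHaarMeasure_of_isCompact_nonempty_interior μ.inv Set.univ isCompact_univ
      (by simp) (by simp) (by simp)
  exact Measure.isHaarMeasure_eq_of_isProbabilityMeasure _ _

lemma action_eq [NeZero l] (B : YM.Frame G n) (U : Link d l → G) :
    action U = YM.act B.toLD U := rfl

lemma lieAlg_eq (B : YM.Frame G n) : lieAlg G = Submodule.span ℝ (Set.range B.X) := by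
  unfold lieAlg
  refine le_antisymm (Submodule.span_le.2 fun Y hY => B.full Y hY) (Submodule.span_le.2 ?_)
  rintro _ ⟨a, rfl⟩
  exact Submodule.subset_span fun t => ⟨B.ex a t, B.ex_eq a t⟩

/-- components -/
def co (B : YM.Frame G n) (a : Fin n) (Y : Mt N) : ℝ := (trace ((B.X a)ᴴ * Y)).re

lemma co_add (B : YM.Frame G n) (a : Fin n) (Y Z : Mt N) : co B a (Y + Z) = co B a Y + co B a Z := by
  unfold co; rw [Matrix.mul_add, trace_add, Complex.add_re]

lemma co_smul (B : YM.Frame G n) (a : Fin n) (c : ℝ) (Y : Mt N) : co B a (c • Y) = c * co B a Y := by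
  unfold co; rw [Matrix.mul_smul, trace_smul, Complex.smul_re, smul_eq_mul]

/-- components, as a linear map -/
def coL (B : YM.Frame G n) (a : Fin n) : Mt N →L[ℝ] ℝ :=
  LinearMap.toContinuousLinearMap
    { toFun := co B a
      map_add' := co_add B a
      map_smul' := fun c Y => by rw [co_smul]; rfl }

lemma coL_apply (B : YM.Frame G n) (a : Fin n) (Y : Mt N) : coL B a Y = co B a Y := rfl

lemma co_X (B : YM.Frame G n) (a b : Fin n) : co B a (B.X b) = if a = b then 1 else 0 :=
  B.orth a b

lemma expand (B : YM.Frame G n) {Y : Mt N} (hY : Y ∈ lieAlg G) : Y = ∑ a, co B a Y • B.X a := by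
  rw [lieAlg_eq B] at hY
  induction hY using Submodule.span_induction with
  | mem Y hY =>
    obtain ⟨b, rfl⟩ := hY
    simp only [co_X, ite_smul, one_smul, zero_smul, Finset.sum_ite_eq', Finset.mem_univ, if_true]
  | zero =>
    have h1 : ∀ a, co B a (0 : Mt N) = 0 := fun a => (coL B a).map_zero
    simp only [h1, zero_smul, Finset.sum_const_zero]
  | add Y Z _ _ hY hZ =>
    simp only [co_add, add_smul, Finset.sum_add_distrib]
    rw [← hY, ← hZ]
  | smul c Y _ hY =>
    simp only [co_smul, mul_smul, ← Finset.smul_sum]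
    rw [← hY]

/-- the pairing in components -/
lemma pair_co (B : YM.Frame G n) {Y : Mt N} (hY : Y ∈ lieAlg G) (W : Mt N) :
    (trace (Yᴴ * W)).re = ∑ a, co B a Y * co B a W := by
  conv_lhs => rw [expand B hY]
  rw [Matrix.conjTranspose_sum, Finset.sum_mul, trace_sum, Complex.re_sum]
  refine Finset.sum_congr rfl fun a _ => ?_
  rw [Matrix.conjTranspose_smul, Matrix.smul_mul, trace_smul, star_trivial, Complex.smul_re,
    smul_eq_mul]
  rfl

lemma co_fi (B : YM.Frame G n) (a : Fin n) (g : G) : co B a (mt g) = -YM.fi B.toLD a g := by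
  unfold co
  rw [B.skewX, Matrix.neg_mul, trace_neg, Complex.neg_re]
  congr 1
  exact (YM.trX_apply (L := B.toLD) a (mt g)).symm

/-- half of a symmetric sum -/
lemma half_sum {s : Fin d → Fin d → ℝ} (h1 : ∀ i j, s i j = s j i) (h2 : ∀ i, s i i = 0) :
    ∑ i, ∑ j, (if i < j then s i j else 0) = 1 / 2 * ∑ i, ∑ j, s i j := by
  have h3 : ∀ i j, s i j = (if i < j then s i j else 0) + if j < i then s j i else 0 := by
    intro i j
    rcases lt_trichotomy i j with h | h | h
    · rw [if_pos h, if_neg (lt_asymm h), add_zero]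
    · subst h; rw [if_neg (lt_irrefl _), add_zero, h2]
    · rw [if_neg (lt_asymm h), if_pos h, zero_add, h1]
  have h4 : ∑ i, ∑ j, s i j = ∑ i, ∑ j, (if i < j then s i j else 0) +
      ∑ i, ∑ j, (if j < i then s j i else 0) := by
    rw [← Finset.sum_add_distrib]
    refine Finset.sum_congr rfl fun i _ => ?_
    rw [← Finset.sum_add_distrib]
    exact Finset.sum_congr rfl fun j _ => h3 i j
  have h5 : ∑ i, ∑ j, (if j < i then s j i else 0) = ∑ i, ∑ j, (if i < j then s i j else 0) :=
    Finset.sum_comm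
  rw [h4, h5]; ring

/-- scalar products of forms in components -/
lemma dot_co (B : YM.Frame G n) {f g : Fin d → Fin d → Mt N} (hf : ∀ i j, f i j ∈ lieAlg G)
    (ha : ∀ i j, f i j = -f j i) (hg : ∀ i j, g i j = -g j i) :
    dot f g = 1 / 2 * ∑ i, ∑ j, ∑ a, co B a (f i j) * co B a (g i j) := by
  unfold dot
  have hneg : ∀ (a : Fin n) (Y : Mt N), co B a (-Y) = -co B a Y := fun a Y => (coL B a).map_neg Y
  rw [← half_sum (s := fun i j => ∑ a, co B a (f i j) * co B a (g i j))]
  · refine Finset.sum_congr rfl fun i _ => Finset.sum_congr rfl fun j _ => ?_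
    split_ifs
    · exact pair_co B (hf i j) _
    · rfl
  · intro i j
    refine Finset.sum_congr rfl fun a _ => ?_
    rw [ha i j, hg i j, hneg, hneg]; ring
  · intro i
    refine Finset.sum_eq_zero fun a _ => ?_
    have h1 : co B a (f i i) = -co B a (f i i) := by
      conv_lhs => rw [ha i i]
      rw [hneg]
    have h2 : co B a (f i i) = 0 := by linarith
    rw [h2, zero_mul]

section cont

/-- the components of a two form -/
def fco (B : YM.Frame G n) (f : Fin d → Fin d → (Fin d → ℝ) → Mt N) :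
    Fin n → Fin d → Fin d → (Fin d → ℝ) → ℝ := fun a i j y => co B a (f i j y)

lemma fco_cont (B : YM.Frame G n) {f : Fin d → Fin d → (Fin d → ℝ) → Mt N} (hf : IsTest G f)
    (a : Fin n) (i j : Fin d) : Continuous (fco B f a i j) :=
  (coL B a).continuous.comp (hf.cont i j)

lemma fco_anti (B : YM.Frame G n) {f : Fin d → Fin d → (Fin d → ℝ) → Mt N} (hf : IsTest G f)
    (a : Fin n) (i j : Fin d) (y : Fin d → ℝ) : fco B f a i j y = -fco B f a j i y := by
  unfold fco
  rw [hf.anti i j y]
  exact (coL B a).map_neg _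

lemma fco_SBx (B : YM.Frame G n) {f : Fin d → Fin d → (Fin d → ℝ) → Mt N} (hf : IsTest G f) :
    ∃ R : ℕ, (∀ i j y, f i j y ≠ 0 → ∀ k, |y k| ≤ R) ∧
      ∀ a i j, h897.SBx R (fco B f a i j) := by
  have h1 : ∀ i j, ∃ r : ℕ, ∀ y, f i j y ≠ 0 → ∀ k, |y k| ≤ r := by
    intro i j
    obtain ⟨r, hr⟩ := (hf.supp i j).isCompact.isBounded.subset_closedBall (0 : Fin d → ℝ)
    obtain ⟨R, hR⟩ := exists_nat_ge r
    refine ⟨R, fun y hy k => ?_⟩
    have h1 := hr (subset_tsupport _ hy)
    rw [Metric.mem_closedBall, dist_zero_right] at h1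
    exact ((norm_le_pi_norm y k).trans h1).trans hR
  choose r hr using h1
  have hle : ∀ i j, r i j ≤ ∑ i, ∑ j, r i j := fun i j =>
    (Finset.single_le_sum (f := fun j => r i j) (fun _ _ => Nat.zero_le _)
      (Finset.mem_univ j)).trans (Finset.single_le_sum (f := fun i => ∑ j, r i j)
      (fun _ _ => Nat.zero_le _) (Finset.mem_univ i))
  have h2 : ∀ i j y, f i j y ≠ 0 → ∀ k, |y k| ≤ ((∑ i, ∑ j, r i j : ℕ) : ℝ) := fun i j y hy k =>
    (hr i j y hy k).trans (by exact_mod_cast hle i j)
  refine ⟨∑ i, ∑ j, r i j, h2, fun a i j y hy k => h2 i j y (fun h => hy ?_) k⟩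
  unfold fco
  rw [h]
  exact (coL B a).map_zero

lemma pd_co (B : YM.Frame G n) {A : (Fin d → ℝ) → Mt N} (hA : ContDiff ℝ ∞ A) (a : Fin n)
    (i : Fin d) (x : Fin d → ℝ) :
    h897.pd i (fun y => co B a (A y)) x = co B a (fderiv ℝ A x (Pi.single i 1)) := by
  unfold h897.pd
  have h1 : HasFDerivAt (fun y => co B a (A y)) ((coL B a).comp (fderiv ℝ A x)) x :=
    (coL B a).hasFDerivAt.comp x (hA.differentiable (by simp) x).hasFDerivAt
  rw [h1.fderiv]
  rfl

/-- the functional in components -/
lemma J_co (B : YM.Frame G n) {f : Fin d → Fin d → (Fin d → ℝ) → Mt N} (hf : IsTest G f)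
    {A : Fin d → (Fin d → ℝ) → Mt N}
    (hA : ∀ i, ContDiff ℝ ∞ (A i) ∧ HasCompactSupport (A i) ∧ ∀ x, A i x ∈ lieAlg G) :
    2 * (∫ x, dot (fun i j => f i j x) (extDer A x)) - ∫ x, dot (extDer A x) (extDer A x) =
      h897.Jc (fco B f) (fun a k y => co B a (A k y)) := by
  have hCc : ∀ a k, h897.Cc fun y => co B a (A k y) := fun a k =>
    ⟨(coL B a).contDiff.comp (hA k).1, (hA k).2.1.comp_left (g := co B a) (coL B a).map_zero⟩
  have hder : ∀ i j x, fderiv ℝ (A j) x (Pi.single i 1) ∈ lieAlg G := by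
    intro i j x
    have h1 : ∀ v, fderiv ℝ (A j) x v ∈ lieAlg G := by
      intro v
      by_contra hne
      obtain ⟨F, hF, hS⟩ := Submodule.exists_le_ker_of_notMem hne
      have h2 : HasFDerivAt (fun y => F (A j y))
          ((LinearMap.toContinuousLinearMap F).comp (fderiv ℝ (A j) x)) x :=
        (LinearMap.toContinuousLinearMap F).hasFDerivAt.comp x
          ((hA j).1.differentiable (by simp) x).hasFDerivAt
      have h3 : (fun y => F (A j y)) = fun _ => 0 := by
        funext y
        exact hS ((hA j).2.2 y)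
      rw [h3] at h2
      have h4 := h2.unique (hasFDerivAt_const (0 : ℝ) x)
      exact hF (congrArg (fun T => T v) h4)
    exact h1 _
  have hE : ∀ x i j, extDer A x i j ∈ lieAlg G := fun x i j =>
    Submodule.sub_mem _ (hder i j x) (hder j i x)
  have hEa : ∀ x i j, extDer A x i j = -extDer A x j i := fun x i j => by
    unfold extDer; rw [neg_sub]
  have hco : ∀ x i j a, co B a (extDer A x i j) =
      h897.dc (fun a k y => co B a (A k y)) a i j x := by
    intro x i j a
    unfold extDer h897.dc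
    rw [pd_co B (hA j).1, pd_co B (hA i).1]
    exact (coL B a).map_sub _ _
  have hdC : ∀ a i j, Continuous (h897.dc (fun a k y => co B a (A k y)) a i j) ∧
      HasCompactSupport (h897.dc (fun a k y => co B a (A k y)) a i j) := by
    intro a j k
    have h1 := ((hCc a k).pd j).add ((hCc a j).pd k).neg
    have h2 : h897.dc (fun a k y => co B a (A k y)) a j k =
        fun y => h897.pd j (fun y => co B a (A k y)) y + -h897.pd k (fun y => co B a (A j y)) y := by
      funext y; unfold h897.dc; ring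
    rw [h2]
    exact ⟨h1.cont, h1.cs⟩
  have i2 : ∀ a j k, Integrable (fun y => fco B f a j k y *
      h897.dc (fun a k y => co B a (A k y)) a j k y) volume := fun a j k =>
    ((fco_cont B hf a j k).mul (hdC a j k).1).integrable_of_hasCompactSupport
      (hdC a j k).2.mul_left
  have i3 : ∀ a j k, Integrable (fun y => h897.dc (fun a k y => co B a (A k y)) a j k y *
      h897.dc (fun a k y => co B a (A k y)) a j k y) volume := fun a j k =>
    ((hdC a j k).1.mul (hdC a j k).1).integrable_of_hasCompactSupport (hdC a j k).2.mul_left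
  have gen : ∀ F H : Fin n → Fin d → Fin d → (Fin d → ℝ) → ℝ,
      (∀ a j k, Integrable (fun y => F a j k y * H a j k y) volume) →
      ∫ x, 1 / 2 * ∑ i, ∑ j, ∑ a, F a i j x * H a i j x = h897.IPc F H := by
    intro F H hi
    unfold h897.IPc
    rw [integral_const_mul]
    congr 1
    rw [integral_finsetSum _ fun i _ => integrable_finsetSum _ fun j _ =>
      integrable_finsetSum _ fun a _ => hi a i j]
    have h1 : ∀ i, ∫ x, ∑ j, ∑ a, F a i j x * H a i j x = ∑ a, ∑ j, ∫ x, F a i j x * H a i j x := by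
      intro i
      rw [integral_finsetSum _ fun j _ => integrable_finsetSum _ fun a _ => hi a i j,
        Finset.sum_comm]
      refine Finset.sum_congr rfl fun j _ => ?_
      exact integral_finsetSum _ fun a _ => hi a i j
    rw [Finset.sum_congr rfl fun i _ => h1 i, Finset.sum_comm]
  unfold h897.Jc
  congr 1
  · congr 1
    rw [← gen _ _ i2]
    refine integral_congr_ae (Filter.Eventually.of_forall fun x => ?_)
    simp only
    rw [dot_co B (fun i j => hf.val i j x) (fun i j => hf.anti i j x) (hEa x)]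
    simp only [hco]
    rfl
  · rw [← gen _ _ i3]
    refine integral_congr_ae (Filter.Eventually.of_forall fun x => ?_)
    simp only
    rw [dot_co B (hE x) (hEa x) (hEa x)]
    simp only [hco]

lemma exactPart_eq (B : YM.Frame G n) {f : Fin d → Fin d → (Fin d → ℝ) → Mt N}
    (hf : IsTest G f) : exactPart G f = h897.Qc (fco B f) := by
  unfold exactPart h897.Qc
  congr 1
  ext r
  constructor
  · rintro ⟨A, hA, rfl⟩
    exact ⟨fun a k y => co B a (A k y), fun a k => ⟨(coL B a).contDiff.comp (hA k).1,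
      (hA k).2.1.comp_left (g := co B a) (coL B a).map_zero⟩, J_co B hf hA⟩
  · rintro ⟨b, hb, rfl⟩
    have hA : ∀ i, ContDiff ℝ ∞ (fun y => ∑ a, b a i y • B.X a) ∧
        HasCompactSupport (fun y => ∑ a, b a i y • B.X a) ∧
        ∀ x, ∑ a, b a i x • B.X a ∈ lieAlg G := by
      intro i
      refine ⟨ContDiff.sum fun a _ => (hb a i).sm.smul contDiff_const, ?_, fun x => ?_⟩
      · refine HasCompactSupport.intro
          (K := ⋃ a ∈ (Finset.univ : Finset (Fin n)), tsupport (b a i))
          ((Finset.univ : Finset (Fin n)).isCompact_biUnion fun a _ => (hb a i).cs) fun y hy => ?_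
        simp only [Finset.mem_univ, Set.iUnion_true, Set.mem_iUnion, not_exists] at hy
        refine Finset.sum_eq_zero fun a _ => ?_
        rw [image_eq_zero_of_notMem_tsupport (hy a), zero_smul]
      · rw [lieAlg_eq B]
        exact Submodule.sum_mem _ fun a _ => Submodule.smul_mem _ _
          (Submodule.subset_span ⟨a, rfl⟩)
    refine ⟨fun i y => ∑ a, b a i y • B.X a, hA, ?_⟩
    rw [J_co B hf hA]
    congr 1
    funext a k y
    have h1 : co B a (∑ c, b c k y • B.X c) = ∑ c, co B a (b c k y • B.X c) :=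
      map_sum (coL B a) _ _
    rw [h1]
    simp only [co_smul, co_X, mul_ite, mul_one, mul_zero, Finset.sum_ite_eq, Finset.mem_univ,
      if_true]

end cont

section bridge

variable [CompactSpace G] [SecondCountableTopology G] [MeasurableSpace G] [BorelSpace G]
  (μ : Measure G) [IsProbabilityMeasure μ] [μ.IsHaarMeasure] (B : YM.Frame G n)

lemma expect_eq [NeZero l] (β : ℝ) (F : (LinkZ d → G) → ℝ) : expect l μ β F =
    YM.EX μ B.toLD β (fun U : YM.Ed d l → G => F (YM.lf U)) := by
  unfold expect YM.EX YM.Zt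
  simp only [one_mul]
  rfl

include B in
lemma action_cont [NeZero l] : Continuous (action : (Link d l → G) → ℝ) :=
  YM.act_cont (L := B.toLD)

include B in
/-- existence of infinite volume limits -/
lemma exists_infVol (β : ℝ) : ∃ ν : Measure (LinkZ d → G), IsInfVol μ β ν := by
  have hP : ∀ j : ℕ, ∃ P : ProbabilityMeasure (LinkZ d → G),
      ∀ F : (LinkZ d → G) → ℝ, Continuous F →
        ∫ V, F V ∂(P : Measure (LinkZ d → G)) = expect (2 * (j + 1)) μ β F := by
    intro j
    have hper : Continuous (per : (Link d (2 * (j + 1)) → G) → LinkZ d → G) :=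
      continuous_pi fun e => continuous_apply _
    have hexp : Continuous fun U : Link d (2 * (j + 1)) → G =>
        Real.exp (-(β * action U)) :=
      Real.continuous_exp.comp (continuous_const.mul (action_cont B)).neg
    have hint : Integrable (fun U : Link d (2 * (j + 1)) → G =>
        Real.exp (-(β * action U))) (Measure.pi fun _ => μ) :=
      hexp.integrable_of_hasCompactSupport (HasCompactSupport.of_compactSpace _)
    have h1 := isProbabilityMeasure_tilted (f := fun U : Link d (2 * (j + 1)) → G =>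
      -(β * action U)) hint
    refine ⟨⟨((Measure.pi fun _ => μ).tilted fun U : Link d (2 * (j + 1)) → G =>
      -(β * action U)).map per, Measure.isProbabilityMeasure_map hper.aemeasurable⟩,
      fun F hF => ?_⟩
    show ∫ V, F V ∂(((Measure.pi fun _ => μ).tilted fun U : Link d (2 * (j + 1)) → G =>
      -(β * action U)).map per) = _
    rw [integral_map hper.aemeasurable hF.aestronglyMeasurable, integral_tilted]
    unfold expect
    rw [← integral_div]
    refine integral_congr_ae (Filter.Eventually.of_forall fun U => ?_)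
    simp only [smul_eq_mul]
    ring
  choose P hP using hP
  obtain ⟨ν, s, hs, hlim⟩ := CompactSpace.tendsto_subseq P
  refine ⟨ν, ⟨inferInstance, s, hs.tendsto_atTop, fun F hF => ?_⟩⟩
  have h1 := (ProbabilityMeasure.tendsto_iff_forall_integral_tendsto.1 hlim)
    (BoundedContinuousFunction.mkOfCompact ⟨F, hF⟩)
  simp only [Function.comp_apply, BoundedContinuousFunction.mkOfCompact_apply,
    ContinuousMap.coe_mk] at h1
  simpa only [hP _ F hF] using h1

lemma hol_eq (V : LinkZ d → G) (x : Fin d → ℤ) (p : List (Fin d × Bool)) :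
    hol V x p = YM.hol V x p := by
  induction p generalizing x with
  | nil => rfl
  | cons s p ih =>
    obtain ⟨i, s⟩ := s
    cases s with
    | true => simp only [hol, YM.hol, ih]
    | false => simp only [hol, YM.hol, ih]

omit [CompactSpace G] [SecondCountableTopology G] [MeasurableSpace G] [BorelSpace G] in
lemma dest_eq (x : Fin d → ℤ) (p : List (Fin d × Bool)) : dest x p = YM.dest x p := by
  induction p generalizing x with
  | nil => rfl
  | cons s p ih =>
    obtain ⟨i, s⟩ := s
    cases s with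
    | true => simp only [dest, YM.dest, ih]
    | false => simp only [dest, YM.dest, ih]

lemma curv_cont (γ : (Fin d → ℤ) → List (Fin d × Bool)) (x : Fin d → ℤ) (i j : Fin d) :
    Continuous fun V : LinkZ d → G => curv γ V x i j := by
  unfold curv
  have h2 : Continuous (mt : G → Mt N) := continuous_subtype_val.comp continuous_subtype_val
  have h3 : Continuous fun V : LinkZ d → G => hol V 0 (γ x) := by
    simp only [hol_eq]
    exact YM.hol_cont 0 (γ x)
  have h5 : ∀ e : LinkZ d, Continuous fun V : LinkZ d → G => V e := fun e => continuous_apply e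
  have h4 : Continuous fun V : LinkZ d → G => plaqZ V x i j := by
    unfold plaqZ
    exact (((h5 _).mul (h5 _)).mul (h5 _).inv).mul (h5 _).inv
  exact h2.comp ((h3.mul h4).mul h3.inv)

/-- the sum in the definition of the field is finite -/
lemma field_eq {f : Fin d → Fin d → (Fin d → ℝ) → Mt N} {R q : ℕ} (hq : 1 ≤ q)
    (hR : ∀ i j y, f i j y ≠ 0 → ∀ k, |y k| ≤ R) (γ : (Fin d → ℤ) → List (Fin d × Bool))
    (V : LinkZ d → G) (x : Fin d → ℤ)
    (hx : dot (fun i j => f i j fun k => (x k : ℝ) / q) (curv γ V x) ≠ 0) (k : Fin d) :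
    |x k| ≤ ((R * q : ℕ) : ℤ) := by
  have hq0 : (0 : ℝ) < q := by exact_mod_cast hq
  have h1 : ∃ i j, f i j (fun k => (x k : ℝ) / q) ≠ 0 := by
    by_contra hc
    push Not at hc
    apply hx
    unfold dot
    simp [hc]
  obtain ⟨i, j, hij⟩ := h1
  have h2 := hR i j _ hij k
  rw [abs_div, abs_of_pos hq0, div_le_iff₀ hq0] at h2
  exact_mod_cast h2

lemma field_cont {f : Fin d → Fin d → (Fin d → ℝ) → Mt N} {R q : ℕ} (hq : 1 ≤ q)
    (hR : ∀ i j y, f i j y ≠ 0 → ∀ k, |y k| ≤ R) (β : ℝ)
    (γ : (Fin d → ℤ) → List (Fin d × Bool)) :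
    Continuous fun V : LinkZ d → G => field β q γ f V := by
  unfold field
  refine continuous_const.mul ?_
  have h1 : ∀ V : LinkZ d → G, ∑' x : Fin d → ℤ, dot (fun i j => f i j fun k => (x k : ℝ) / q)
      (curv γ V x) = ∑ x ∈ h897.bx d (R * q), dot (fun i j => f i j fun k => (x k : ℝ) / q)
      (curv γ V x) := by
    intro V
    refine tsum_eq_sum fun x hx => ?_
    by_contra hne
    apply hx
    unfold h897.bx
    rw [Fintype.mem_piFinset]
    intro k
    rw [Finset.mem_Icc]
    exact abs_le.1 (field_eq hq hR γ V x hne k)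
  simp only [h1]
  refine continuous_finsetSum _ fun x _ => ?_
  unfold dot
  refine continuous_finsetSum _ fun i _ => continuous_finsetSum _ fun j _ => ?_
  split_ifs
  · exact Complex.continuous_re.comp ((continuous_const.matrix_mul (curv_cont γ x i j)).matrix_trace)
  · exact continuous_const

/-- the field on the torus -/
lemma field_tor [NeZero l] {f : Fin d → Fin d → (Fin d → ℝ) → Mt N} (hf : IsTest G f) {R q S : ℕ}
    (hk : h897.Ok q S R l) (hR : ∀ i j y, f i j y ≠ 0 → ∀ k, |y k| ≤ R) (β : ℝ)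
    (γ : (Fin d → ℤ) → List (Fin d × Bool)) (U : YM.Ed d l → G) :
    field β q γ f (YM.lf (YM.tr (YM.zt l fun _ => (S : ℤ)) U)) =
      -(Real.sqrt β * YM.Fh B.toLD (h897.sm2 q S (fco B f)) (fun y => YM.hol (YM.lf U)
        (fun _ => (S : ℤ)) (γ fun i => (YM.wv y i : ℤ) - (S : ℤ))) U) := by
  obtain ⟨o, ho⟩ : ∃ o : Fin d → ℤ, o = fun _ => (S : ℤ) := ⟨_, rfl⟩
  obtain ⟨V, hV⟩ : ∃ V : LinkZ d → G, V = YM.lf (YM.tr (YM.zt l fun _ => (S : ℤ)) U) := ⟨_, rfl⟩
  have hV2 : V = fun e => YM.lf U (e.1 + o, e.2) := by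
    rw [hV, ho]
    funext e
    show U (_, e.2) = U (_, e.2)
    congr 2
    funext i
    unfold YM.zt
    simp
  rw [← hV]
  unfold field
  rw [h897.tsum_tor (l := l) (S := S) (M := R * q) (fun z hz i => field_eq hk.q1 hR γ V z hz i)
    hk.s1.le (by have := hk.s2; omega)]
  -- one site
  have hsite : ∀ y : YM.St d l, dot (fun i j => f i j fun k =>
      (((YM.wv y k : ℤ) - S : ℤ) : ℝ) / q) (curv γ V fun i => (YM.wv y i : ℤ) - (S : ℤ)) =
      -∑ a, 1 / 2 * ∑ i, ∑ j, (h897.smp q S (fco B f a i j) y) *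
        YM.fi B.toLD a (YM.hol (YM.lf U) o (γ fun i => (YM.wv y i : ℤ) - (S : ℤ)) *
          YM.plqT U y i j * (YM.hol (YM.lf U) o (γ fun i => (YM.wv y i : ℤ) - (S : ℤ)))⁻¹) := by
    intro y
    obtain ⟨x, hx⟩ : ∃ x : Fin d → ℤ, x = fun i => (YM.wv y i : ℤ) - (S : ℤ) := ⟨_, rfl⟩
    rw [← hx]
    obtain ⟨H, hH⟩ : ∃ H, H = YM.hol (YM.lf U) o (γ x) := ⟨_, rfl⟩
    have hhol : hol V 0 (γ x) = H := by
      rw [hol_eq, hV2, YM.hol_trans, zero_add, hH]
    have hyx : YM.zt l (x + o) = y := by
      have h3 := YM.ct_wv y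
      conv_rhs => rw [← h3]
      funext i
      rw [hx, ho]
      unfold YM.zt YM.ct
      simp
    have hpl : ∀ i j, plaqZ V x i j = YM.plqT U y i j := by
      intro i j
      have g1 : ∀ (z : Fin d → ℤ) (k : Fin d), V (z, k) = U (YM.zt l (z + o), k) := by
        intro z k; rw [hV2]; rfl
      have g2 : ∀ k : Fin d, YM.zt l (x + Pi.single k 1 + o) = y + YM.eT k := by
        intro k
        rw [add_right_comm, YM.zt_add, hyx]
      unfold plaqZ YM.plqT
      rw [g1, g1, g1, g1, g2, g2, hyx]
    have hcv : ∀ i j, curv γ V x i j = mt (H * YM.plqT U y i j * H⁻¹) := by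
      intro i j
      unfold curv
      rw [hhol, hpl]
    have hpt : (fun k => ((x k : ℤ) : ℝ) / q) = fun k => ((YM.wv y k : ℝ) - S) / q := by
      funext k
      rw [hx]
      push_cast
      rfl
    have hpt' : (fun k : Fin d => (((YM.wv y k : ℤ) - S : ℤ) : ℝ) / q) =
        fun k => ((YM.wv y k : ℝ) - S) / q := by
      funext k
      push_cast
      rfl
    rw [← hH, hpt']
    unfold dot
    have hs : ∀ i j, (trace ((f i j fun k => ((YM.wv y k : ℝ) - S) / q)ᴴ *
        curv γ V x i j)).re = ∑ a, h897.smp q S (fco B f a i j) y *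
          -YM.fi B.toLD a (H * YM.plqT U y i j * H⁻¹) := by
      intro i j
      rw [pair_co B (hf.val i j _), hcv]
      refine Finset.sum_congr rfl fun a _ => ?_
      rw [co_fi]
      rfl
    have hz : ∀ a i j, h897.smp q S (fco B f a i j) y * -YM.fi B.toLD a
        (H * YM.plqT U y i j * H⁻¹) = h897.smp q S (fco B f a j i) y * -YM.fi B.toLD a
        (H * YM.plqT U y j i * H⁻¹) := by
      intro a i j
      have e1 : h897.smp q S (fco B f a i j) y = -h897.smp q S (fco B f a j i) y :=
        fco_anti B hf a i j _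
      have e2 : YM.fi B.toLD a (H * YM.plqT U y i j * H⁻¹) =
          -YM.fi B.toLD a (H * YM.plqT U y j i * H⁻¹) := by
        rw [← YM.fi_inv, YM.plqT_swap U y i j]
        congr 1
        group
      rw [e1, e2]; ring
    simp only [hs]
    rw [half_sum (s := fun i j => ∑ a, h897.smp q S (fco B f a i j) y *
          -YM.fi B.toLD a (H * YM.plqT U y i j * H⁻¹))
      (fun i j => Finset.sum_congr rfl fun a _ => hz a i j)
      (fun i => Finset.sum_eq_zero fun a _ => by
        have e1 : YM.plqT U y i i = 1 := by unfold YM.plqT; group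
        rw [e1, mul_one, mul_inv_cancel, YM.fi_one, neg_zero, mul_zero])]
    rw [← Finset.sum_neg_distrib, Finset.mul_sum]
    have e3 : ∀ i, 1 / 2 * ∑ j, ∑ a, h897.smp q S (fco B f a i j) y *
        -YM.fi B.toLD a (H * YM.plqT U y i j * H⁻¹) = ∑ a, -(1 / 2 * ∑ j,
        h897.smp q S (fco B f a i j) y * YM.fi B.toLD a (H * YM.plqT U y i j * H⁻¹)) := by
      intro i
      rw [Finset.sum_comm, Finset.mul_sum]
      refine Finset.sum_congr rfl fun a _ => ?_
      rw [← mul_neg, ← Finset.sum_neg_distrib]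
      congr 1
      exact Finset.sum_congr rfl fun j _ => by ring
    rw [Finset.sum_congr rfl fun i _ => e3 i, Finset.sum_comm]
    refine Finset.sum_congr rfl fun a _ => ?_
    rw [Finset.sum_neg_distrib, Finset.mul_sum]
  rw [Finset.sum_congr rfl fun y _ => hsite y]
  unfold YM.Fh YM.ipF YM.ip2 h897.sm2
  rw [← ho]
  have e4 : ∀ (a : Fin n) (i j : Fin d), ∑ y : YM.St d l,
      (h897.cq d q • h897.smp q S (fco B f a i j)) y *
        YM.fi B.toLD a (YM.hol (YM.lf U) o (γ fun i => (YM.wv y i : ℤ) - (S : ℤ)) *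
          YM.plqT U y i j * (YM.hol (YM.lf U) o (γ fun i => (YM.wv y i : ℤ) - (S : ℤ)))⁻¹) =
      h897.cq d q * ∑ y : YM.St d l, h897.smp q S (fco B f a i j) y *
        YM.fi B.toLD a (YM.hol (YM.lf U) o (γ fun i => (YM.wv y i : ℤ) - (S : ℤ)) *
          YM.plqT U y i j * (YM.hol (YM.lf U) o (γ fun i => (YM.wv y i : ℤ) - (S : ℤ)))⁻¹) := by
    intro a i j
    rw [Finset.mul_sum]
    refine Finset.sum_congr rfl fun y _ => ?_
    rw [Pi.smul_apply, smul_eq_mul, mul_assoc]
  simp only [e4, ← Finset.mul_sum]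
  rw [Finset.sum_neg_distrib, ← Finset.mul_sum, Finset.sum_comm]
  have e5 : ∑ a, ∑ y : YM.St d l, ∑ i, ∑ j, h897.smp q S (fco B f a i j) y *
        YM.fi B.toLD a (YM.hol (YM.lf U) o (γ fun i => (YM.wv y i : ℤ) - (S : ℤ)) *
          YM.plqT U y i j * (YM.hol (YM.lf U) o (γ fun i => (YM.wv y i : ℤ) - (S : ℤ)))⁻¹) =
      ∑ a, ∑ i, ∑ j, ∑ y : YM.St d l, h897.smp q S (fco B f a i j) y *
        YM.fi B.toLD a (YM.hol (YM.lf U) o (γ fun i => (YM.wv y i : ℤ) - (S : ℤ)) *
          YM.plqT U y i j * (YM.hol (YM.lf U) o (γ fun i => (YM.wv y i : ℤ) - (S : ℤ)))⁻¹) := by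
    refine Finset.sum_congr rfl fun a _ => ?_
    rw [Finset.sum_comm]
    refine Finset.sum_congr rfl fun i _ => ?_
    rw [Finset.sum_comm]
  rw [e5]
  unfold h897.cq
  ring

end bridge

theorem result {N d : ℕ} (hd : 3 ≤ d) (G : Subgroup (UU N)) (hG : IsClosed (G : Set (UU N)))
    [MeasurableSpace G] [BorelSpace G] (μ : Measure G) [IsProbabilityMeasure μ]
    [μ.IsHaarMeasure] :
    (∀ β : ℝ, ∃ ν : Measure (LinkZ d → G), IsInfVol μ β ν) ∧
    ∀ (β : ℕ → ℝ) (ν : ℕ → Measure (LinkZ d → G))
      (γ : ℕ → (Fin d → ℤ) → List (Fin d × Bool)),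
      (∀ q : ℕ, (q : ℝ) ^ (60 * d + 88) ≤ β q) → (∀ q, IsInfVol μ (β q) (ν q)) →
      (∀ q x, dest 0 (γ q x) = x ∧ (γ q x).length ≤ q ^ 5 * (1 + ∑ i, (x i).natAbs)) →
      ∀ f : Fin d → Fin d → (Fin d → ℝ) → Mt N, IsTest G f →
        Tendsto (fun q => ∫ V, Complex.exp (Complex.I * (field (β q) q (γ q) f V : ℝ)) ∂(ν q))
          atTop (𝓝 ((Real.exp (-(exactPart G f / 2)) : ℝ) : ℂ)) := by
  have : CompactSpace G := by
    have h1 : IsCompact (G : Set (UU N)) := hG.isCompact
    exact isCompact_iff_compactSpace.1 h1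
  have h00 : SecondCountableTopology (UU N) := TopologicalSpace.Subtype.secondCountableTopology _
  have : SecondCountableTopology G := TopologicalSpace.Subtype.secondCountableTopology _
  have := right_inv μ
  have := inv_inv' μ
  obtain ⟨n, ⟨B⟩⟩ := YM.exists_frame hG
  refine ⟨fun β => exists_infVol μ B β, fun β ν γ hβ hν hγ f hf => ?_⟩
  rw [exactPart_eq B hf]
  obtain ⟨R, hR, hs⟩ := fco_SBx B hf
  have hc := fco_cont B hf
  have ha := fco_anti B hf
  -- the estimate
  have key : ∀ ε : ℝ, 0 < ε → ∃ q0 : ℕ, ∀ q, q0 ≤ q →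
      |∫ V, Real.cos (field (β q) q (γ q) f V) ∂(ν q) - Real.exp (-(h897.Qc (fco B f) / 2))| ≤ ε ∧
      |∫ V, Real.sin (field (β q) q (γ q) f V) ∂(ν q)| ≤ ε := by
    intro ε hε
    obtain ⟨q0, hq0⟩ := h897.tor_lim μ (L := B.toLD) hd hc hs ha hε
    refine ⟨max (R + 2) q0, fun q hq => ?_⟩
    have g1 : R + 2 ≤ q := (le_max_left _ _).trans hq
    have g2 : q0 ≤ q := (le_max_right _ _).trans hq
    have hq1 : (1 : ℝ) ≤ q := by
      have : 1 ≤ q := by omega
      exact_mod_cast this
    have hβ1 : 1 ≤ β q := le_trans (one_le_pow₀ hq1) (hβ q)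
    have hβ0 : 0 < β q := by linarith
    obtain ⟨b, hb⟩ : ∃ b : ℝ, b = Real.sqrt (Real.sqrt (β q)) := ⟨_, rfl⟩
    have hb0 : 0 < b := by rw [hb]; exact Real.sqrt_pos.2 (Real.sqrt_pos.2 hβ0)
    have hb2 : b ^ 2 = Real.sqrt (β q) := by rw [hb]; exact Real.sq_sqrt (Real.sqrt_nonneg _)
    have hb4 : b ^ 4 = β q := by
      rw [show b ^ 4 = (b ^ 2) ^ 2 by ring, hb2]; exact Real.sq_sqrt hβ0.le
    have hbq : (q : ℝ) ^ (15 * d + 22) ≤ b := by
      have h1 : ((q : ℝ) ^ (15 * d + 22)) ^ 4 ≤ b ^ 4 := by
        rw [hb4, ← pow_mul]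
        refine le_trans (le_of_eq ?_) (hβ q)
        congr 1; ring
      exact (pow_le_pow_iff_left₀ (by positivity) hb0.le (by norm_num)).1 h1
    obtain ⟨s, hsl, hlim⟩ := (hν q).lim
    have hγ1 : ∀ x, YM.dest 0 (γ q x) = x := fun x => by rw [← dest_eq]; exact (hγ q x).1
    have hγ2 : ∀ x, (γ q x).length ≤ q ^ 5 * (1 + ∑ i, (x i).natAbs) := fun x => (hγ q x).2
    have hfc : Continuous fun V : LinkZ d → G => field (β q) q (γ q) f V :=
      field_cont (by omega) hR (β q) (γ q)
    have l1 := hlim _ (Real.continuous_cos.comp hfc)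
    have l2 := hlim _ (Real.continuous_sin.comp hfc)
    obtain ⟨S, hS⟩ : ∃ S, S = q ^ 7 + 2 + R * q := ⟨_, rfl⟩
    have hev : ∀ᶠ j in atTop, 3 * q ^ 7 + 5 + R * q < 2 * (s j + 1) :=
      (hsl.eventually_ge_atTop (3 * q ^ 7 + 5 + R * q)).mono fun j hj => by omega
    -- the expectations on the tori
    have htor : ∀ j, 3 * q ^ 7 + 5 + R * q < 2 * (s j + 1) → ∀ t : ℝ → ℝ,
        expect (2 * (s j + 1)) μ (β q) (fun V : LinkZ d → G => t (field (β q) q (γ q) f V)) =
          YM.EX μ B.toLD (b ^ 4) (fun U : YM.Ed d (2 * (s j + 1)) → G => t (-(b ^ 2 *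
          YM.Fh B.toLD (h897.sm2 q (q ^ 7 + 2 + R * q) (fco B f)) (fun y => YM.hol (YM.lf U)
            (fun _ => ((q ^ 7 + 2 + R * q : ℕ) : ℤ))
            (γ q fun i => (YM.wv y i : ℤ) - ((q ^ 7 + 2 + R * q : ℕ) : ℤ))) U))) := by
      intro j hj t
      have hk : h897.Ok q S R (2 * (s j + 1)) := h897.Ok.of g1 (by omega) (by
        have h27 : R * q ≤ q ^ 7 := by
          calc R * q ≤ q * q := Nat.mul_le_mul_right q (by omega)
            _ = q ^ 2 := by ring
            _ ≤ q ^ 7 := Nat.pow_le_pow_right (by omega) (by norm_num)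
        omega)
      rw [expect_eq μ B, ← hS, hb4, hb2]
      have e1 := YM.EX_tr μ (L := B.toLD) (β := β q)
        (YM.zt (2 * (s j + 1)) fun _ : Fin d => (S : ℤ))
        (fun U : YM.Ed d (2 * (s j + 1)) → G => t (field (β q) q (γ q) f (YM.lf U)))
      rw [← e1]
      congr 1
      funext U
      rw [field_tor B hf hk hR (β q) (γ q) U]
    have hfin : ∀ j, 3 * q ^ 7 + 5 + R * q < 2 * (s j + 1) →
        |expect (2 * (s j + 1)) μ (β q) (fun V : LinkZ d → G =>
          Real.cos (field (β q) q (γ q) f V)) - Real.exp (-(h897.Qc (fco B f) / 2))| ≤ ε ∧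
        |expect (2 * (s j + 1)) μ (β q) (fun V : LinkZ d → G =>
          Real.sin (field (β q) q (γ q) f V))| ≤ ε := by
      intro j hj
      have h1 := hq0 q g2 b hbq (γ q) hγ1 hγ2 (s j + 1) (by omega)
      rw [htor j hj Real.cos, htor j hj Real.sin]
      simp only [Real.cos_neg, Real.sin_neg]
      refine ⟨h1.1, ?_⟩
      rw [YM.EX_neg, abs_neg]
      exact h1.2
    constructor
    · refine le_of_tendsto ((l1.sub_const _).abs) (hev.mono fun j hj => ?_)
      exact (hfin j hj).1
    · refine le_of_tendsto l2.abs (hev.mono fun j hj => ?_)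
      exact (hfin j hj).2
  -- the conclusion
  rw [Metric.tendsto_atTop]
  intro ε hε
  obtain ⟨q0, hq0⟩ := key (ε / 4) (by positivity)
  refine ⟨max (R + 2) q0, fun q hq => ?_⟩
  have g1 : R + 2 ≤ q := (le_max_left _ _).trans hq
  have g2 : q0 ≤ q := (le_max_right _ _).trans hq
  obtain ⟨k1, k2⟩ := hq0 q g2
  have hfc : Continuous fun V : LinkZ d → G => field (β q) q (γ q) f V :=
    field_cont (by omega) hR (β q) (γ q)
  have hprob := (hν q).prob
  have i1 : Integrable (fun V => Real.cos (field (β q) q (γ q) f V)) (ν q) :=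
    (Real.continuous_cos.comp hfc).integrable_of_hasCompactSupport
      (HasCompactSupport.of_compactSpace _)
  have i2 : Integrable (fun V => Real.sin (field (β q) q (γ q) f V)) (ν q) :=
    (Real.continuous_sin.comp hfc).integrable_of_hasCompactSupport
      (HasCompactSupport.of_compactSpace _)
  have h1 : ∫ V, Complex.exp (Complex.I * (field (β q) q (γ q) f V : ℝ)) ∂(ν q) =
      ((∫ V, Real.cos (field (β q) q (γ q) f V) ∂(ν q) : ℝ) : ℂ) +
        ((∫ V, Real.sin (field (β q) q (γ q) f V) ∂(ν q) : ℝ) : ℂ) * Complex.I := by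
    rw [← integral_complex_ofReal, ← integral_complex_ofReal, ← integral_mul_const,
      ← integral_add i1.ofReal (i2.ofReal.mul_const _)]
    refine integral_congr_ae (Filter.Eventually.of_forall fun V => ?_)
    simp only
    rw [mul_comm, Complex.exp_mul_I, ← Complex.ofReal_cos, ← Complex.ofReal_sin]
  rw [h1, dist_eq_norm]
  have h2 : ((∫ V, Real.cos (field (β q) q (γ q) f V) ∂(ν q) : ℝ) : ℂ) +
        ((∫ V, Real.sin (field (β q) q (γ q) f V) ∂(ν q) : ℝ) : ℂ) * Complex.I -
        ((Real.exp (-(h897.Qc (fco B f) / 2)) : ℝ) : ℂ) =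
      ((∫ V, Real.cos (field (β q) q (γ q) f V) ∂(ν q) - Real.exp (-(h897.Qc (fco B f) / 2)) : ℝ) :
        ℂ) + ((∫ V, Real.sin (field (β q) q (γ q) f V) ∂(ν q) : ℝ) : ℂ) * Complex.I := by
    push_cast; ring
  rw [h2]
  refine lt_of_le_of_lt (norm_add_le _ _) ?_
  rw [norm_mul, Complex.norm_I, mul_one, Complex.norm_real, Complex.norm_real, Real.norm_eq_abs,
    Real.norm_eq_abs]
  linarith

end

end Pool.Agent.Run7.h897.kept.FreeMaxwellLimit
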