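import Mathlib
import Pool.Agent.H906R3.YM.Conc
import Pool.Agent.Run7.h897.FS.Cri

/-!
# Lattice Yang-Mills theory: a finite volume criterion for the mass gap

Lattice gauge theory in dimension `d ≥ 2` with gauge group any closed subgroup `G` of `U(N)`, with
the Wilson plaquette energy `Re tr (1 - U_p)` and arbitrary real couplings `b i j` of the coordinate
planes (`b i j = β` is the isotropic Wilson action). `Crit μ b A` is a finite list of inequalities
between partition functions of tori whose sides are at most `4 A`: for every direction `i` and all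
tori with the side `A` in the direction `i` and the other sides in `{2 A, 4 A}`, doubling the side
in the direction `i` changes the partition function by squaring it, up to the relative error
`1 / (6 * 5 ^ (d - 1))`.

The theorem: if this holds at one even scale `A`, the theory has a mass gap in every infinite volume
limit, for all observables of a time slice, with the rate `log 2 / A`, and the relative errors are
at most `2 ^ (- 2 ^ k)` for all tori with sides between `2 ^ k A` and `4 * 2 ^ k A`. The set of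
couplings for which the criterion holds at some scale is open and contains all the couplings, of
arbitrary strength, which live on pairwise disjoint coordinate planes.
-/

open MeasureTheory Matrix Filter
open scoped Matrix.Norms.Frobenius Topology

namespace Pool.Agent.Results.MP_7f377f_mp.GapCriterion

set_option linter.unusedSectionVars false
set_option linter.style.haveILetI false

noncomputable section

/-- The unitary group `U(N)`. -/
abbrev UU (N : ℕ) := Matrix.unitaryGroup (Fin N) ℂ

/-- The matrix of an element of a subgroup of `U(N)`. -/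
def mt {N : ℕ} {G : Subgroup (UU N)} (g : G) : Matrix (Fin N) (Fin N) ℂ :=
  ((g : UU N) : Matrix (Fin N) (Fin N) ℂ)

/-- Sites of the torus with sides `L i`. -/
abbrev Site {d : ℕ} (L : Fin d → ℕ) := (i : Fin d) → ZMod (L i)

/-- Links of the torus with sides `L i`: base point and direction. -/
abbrev Link {d : ℕ} (L : Fin d → ℕ) := Site L × Fin d

/-- Links of the lattice `ℤ^d`: base point and direction. -/
abbrev LinkZ (d : ℕ) := (Fin d → ℤ) × Fin d

section

variable {N d : ℕ} {G : Subgroup (UU N)} {L : Fin d → ℕ}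

/-- The product of the link variables around the plaquette at `x` in the directions `i`, `j`. -/
def plaq (U : Link L → G) (x : Site L) (i j : Fin d) : G :=
  U (x, i) * U (x + Pi.single i 1, j) * (U (x + Pi.single j 1, i))⁻¹ * (U (x, j))⁻¹

/-- The action `∑_x ∑_{i < j} b i j Re tr (1 - U_p)`, `p` being the plaquette at `x` in the
directions `i`, `j`. -/
def action [∀ i, NeZero (L i)] (b : Fin d → Fin d → ℝ) (U : Link L → G) : ℝ :=
  ∑ x : Site L, ∑ i : Fin d, ∑ j : Fin d,
    if i < j then b i j * (trace (1 - mt (plaq U x i j))).re else 0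

/-- The partition function of the torus with sides `L i`, `μ` being the Haar measure. -/
def partFn [MeasurableSpace G] (μ : Measure G) (b : Fin d → Fin d → ℝ) (L : Fin d → ℕ)
    [∀ i, NeZero (L i)] : ℝ :=
  ∫ U : Link L → G, Real.exp (-action b U) ∂(Measure.pi fun _ => μ)

/-- `L'` is obtained from `L` by doubling the side in the direction `i`. -/
def Doubles (i : Fin d) (L L' : Fin d → ℕ) : Prop := L' i = 2 * L i ∧ ∀ j, j ≠ i → L' j = L j

/-- The finite volume criterion at the scale `A`: for all directions `i` and all boxes with side `A`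
in the direction `i` and sides `2 A` or `4 A` in the other directions. -/
def Crit [MeasurableSpace G] (μ : Measure G) (b : Fin d → Fin d → ℝ) (A : ℕ) : Prop :=
  ∀ (i : Fin d) (L L' : Fin d → ℕ) [∀ j, NeZero (L j)] [∀ j, NeZero (L' j)],
    L i = A → (∀ j, j ≠ i → L j = 2 * A ∨ L j = 4 * A) → Doubles i L L' →
      1 - partFn μ b L' / partFn μ b L ^ 2 < 1 / (6 * 5 ^ (d - 1))

/-- The periodic extension of a configuration. -/
def per (U : Link L → G) : LinkZ d → G := fun e => U (fun i => (e.1 i : ZMod (L i)), e.2)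

/-- The expectation of `F` in the theory on the torus with sides `L i`. -/
def expect [MeasurableSpace G] (μ : Measure G) (b : Fin d → Fin d → ℝ) (L : Fin d → ℕ)
    [∀ i, NeZero (L i)] (F : (LinkZ d → G) → ℝ) : ℝ :=
  (∫ U : Link L → G, F (per U) * Real.exp (-action b U) ∂(Measure.pi fun _ => μ)) / partFn μ b L

/-- `ν` is an infinite volume limit (weak limit along a subsequence) of the theories on the cubic
tori of even side. -/
structure IsInfVol [MeasurableSpace G] (μ : Measure G) (b : Fin d → Fin d → ℝ)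
    (ν : Measure (LinkZ d → G)) : Prop where
  prob : IsProbabilityMeasure ν
  lim : ∃ s : ℕ → ℕ, Tendsto s atTop atTop ∧ ∀ F : (LinkZ d → G) → ℝ, Continuous F →
    Tendsto (fun k => expect μ b (fun _ => 2 * (s k + 1)) F) atTop (𝓝 (∫ V, F V ∂ν))

/-- `F` depends only on the links in the hyperplane `x i = 0`. -/
def AtTimeZero (i : Fin d) (F : (LinkZ d → G) → ℝ) : Prop :=
  ∀ V V' : LinkZ d → G, (∀ e : LinkZ d, e.1 i = 0 → e.2 ≠ i → V e = V' e) → F V = F V'

/-- Translation of a configuration by `t` in the direction `i`. -/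
def shift (i : Fin d) (t : ℕ) (V : LinkZ d → G) : LinkZ d → G :=
  fun e => V (e.1 + Pi.single i (t : ℤ), e.2)

variable [MeasurableSpace G]

/-- Exponential clustering of all the observables of a time slice, `i` being the direction of the
time, with the rate `log 2 / A`. -/
def Clusters (ν : Measure (LinkZ d → G)) (i : Fin d) (A : ℕ) : Prop :=
  ∀ F F' : (LinkZ d → G) → ℝ, Continuous F → Continuous F' → AtTimeZero i F → AtTimeZero i F' →
    ∀ C C' : ℝ, (∀ V, |F V| ≤ C) → (∀ V, |F' V| ≤ C') → ∀ t : ℕ, 1 ≤ t →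
      |∫ V, F V * F' (shift i t V) ∂ν - (∫ V, F V ∂ν) * ∫ V, F' V ∂ν| ≤
        2 * C * C' * (1 / 2) ^ ((t : ℝ) / A)

/-- Doubling of a side squares the partition function up to a relative error `ε`, for all boxes with
even sides at least `B`, the undoubled sides being at most `4 B`. -/
def Doubling (μ : Measure G) (b : Fin d → Fin d → ℝ) (B : ℕ) (ε : ℝ) : Prop :=
  ∀ (i : Fin d) (L L' : Fin d → ℕ) [∀ j, NeZero (L j)] [∀ j, NeZero (L' j)],
    (∀ j, Even (L j) ∧ B ≤ L j) → (∀ j, j ≠ i → L j ≤ 4 * B) → Doubles i L L' →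
      1 - ε ≤ partFn μ b L' / partFn μ b L ^ 2 ∧ partFn μ b L' / partFn μ b L ^ 2 ≤ 1

/-- The couplings for which the criterion holds at some even scale. -/
def Good (μ : Measure G) : Set (Fin d → Fin d → ℝ) :=
  {b | ∃ A : ℕ, 0 < A ∧ Even A ∧ Crit μ b A}

/-- The couplings live on pairwise disjoint coordinate planes. -/
def OnDisjointPlanes (b : Fin d → Fin d → ℝ) : Prop :=
  ∀ i j k l, i < j → k < l → b i j ≠ 0 → b k l ≠ 0 → (i, j) ≠ (k, l) →
    i ≠ k ∧ i ≠ l ∧ j ≠ k ∧ j ≠ l

end

open Pool.Agent.Run7.h897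

variable {N d : ℕ} {G : Subgroup (UU N)}

/-- A Haar probability measure is invariant under right multiplications. -/
lemma right_inv {H : Type*} [Group H] [TopologicalSpace H] [IsTopologicalGroup H]
    [CompactSpace H] [MeasurableSpace H] [BorelSpace H] (μ : Measure H)
    [IsProbabilityMeasure μ] [μ.IsHaarMeasure] : μ.IsMulRightInvariant := by
  refine ⟨fun g => ?_⟩
  have h1 : IsProbabilityMeasure (Measure.map (fun x => x * g) μ) :=
    Measure.isProbabilityMeasure_map (measurable_mul_const g).aemeasurable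
  exact Measure.isHaarMeasure_eq_of_isProbabilityMeasure _ _

/-- A Haar probability measure is invariant under the inversion. -/
lemma inv_inv' {H : Type*} [Group H] [TopologicalSpace H] [IsTopologicalGroup H]
    [CompactSpace H] [MeasurableSpace H] [BorelSpace H] (μ : Measure H)
    [IsProbabilityMeasure μ] [μ.IsHaarMeasure] : μ.IsInvInvariant := by
  have hr := right_inv μ
  refine ⟨?_⟩
  have h1 : IsProbabilityMeasure μ.inv :=
    Measure.isProbabilityMeasure_map measurable_inv.aemeasurable
  have h2 : μ.inv.IsMulLeftInvariant := inferInstance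
  have h3 : μ.inv.IsHaarMeasure :=
    Measure.isHaarMeasure_of_isCompact_nonempty_interior μ.inv Set.univ isCompact_univ
      (by simp) (by simp) (by simp)
  exact Measure.isHaarMeasure_eq_of_isProbabilityMeasure _ _

/-- the plaquette energy -/
def en (g : G) : ℝ := (trace (1 - mt g)).re

lemma mt_cont : Continuous (mt : G → Matrix (Fin N) (Fin N) ℂ) :=
  continuous_subtype_val.comp continuous_subtype_val

lemma en_cont : Continuous (en : G → ℝ) :=
  Complex.continuous_re.comp ((continuous_const.sub mt_cont).matrix_trace)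

lemma mt_mul (g h : G) : mt (g * h) = mt g * mt h := rfl

lemma mt_inv (g : G) : mt g⁻¹ = (mt g)ᴴ := rfl

lemma en_wt : FS.Wt (en : G → ℝ) where
  inv g := by
    unfold en
    rw [mt_inv, trace_sub, trace_sub, trace_conjTranspose]
    simp
  conj h g := by
    unfold en
    rw [trace_sub, trace_sub, mt_mul, mt_mul, trace_mul_comm (mt h * mt g), ← Matrix.mul_assoc,
      ← mt_mul, ← mt_mul]
    congr 3
    rw [show h⁻¹ * h * g = g by group]

section bridge

variable [CompactSpace G] [SecondCountableTopology G] [MeasurableSpace G] [BorelSpace G]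
  (μ : Measure G) [IsProbabilityMeasure μ]

lemma en_bm : FS.BM (en : G → ℝ) := by
  refine ⟨en_cont.measurable, ?_⟩
  obtain ⟨C, hC⟩ := isCompact_univ.exists_bound_of_continuousOn (en_cont (G := G)).continuousOn
  exact ⟨C, fun x => by simpa using hC x (Set.mem_univ x)⟩

lemma action_eq {L : Fin d → ℕ} [∀ i, NeZero (L i)] (b : Fin d → Fin d → ℝ) (U : Link L → G) :
    action b U = FS.act en b U := rfl

lemma partFn_eq {L : Fin d → ℕ} [∀ i, NeZero (L i)] (b : Fin d → Fin d → ℝ) :
    partFn μ b L = FS.Zf μ (en : G → ℝ) b L := rfl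

lemma crit_iff (b : Fin d → Fin d → ℝ) (A : ℕ) : Crit μ b A ↔ FS.CritF μ (en : G → ℝ) b A := by
  constructor
  · intro h i L L' _ _ hi hi' hj
    exact h i L L' hi (fun j hji => (hj j hji).1) ⟨by rw [hi', hi], fun j hji => (hj j hji).2⟩
  · intro h i L L' _ _ hi hj hD
    exact h i L L' hi (by rw [hD.1, hi]) fun j hji => ⟨hj j hji, hD.2 j hji⟩

/-- extension of a slice configuration -/
def ext {D : ℕ} (L : Fin (D + 1) → ℕ) (i : Fin (D + 1)) (x : FS.Lk (FS.cs L i) → G) :
    LinkZ (D + 1) → G := fun e =>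
  Fin.insertNth (α := fun _ => G) i 1
    (fun j => x (fun k => ((e.1 (i.succAbove k) : ℤ) : ZMod (L (i.succAbove k))), j)) e.2

lemma ext_meas {D : ℕ} (L : Fin (D + 1) → ℕ) (i : Fin (D + 1)) :
    Measurable (ext (G := G) L i) := by
  refine measurable_pi_iff.2 fun e => ?_
  unfold ext
  rcases Fin.eq_self_or_eq_succAbove i e.2 with h | ⟨j, h⟩
  · rw [h]
    simp only [Fin.insertNth_apply_same]
    exact measurable_const
  · rw [h]
    simp only [Fin.insertNth_apply_succAbove]
    exact measurable_pi_apply _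

lemma ext_per {D : ℕ} {L : Fin (D + 1) → ℕ} [∀ i, NeZero (L i)] {i : Fin (D + 1)}
    {F : (LinkZ (D + 1) → G) → ℝ} (hF : AtTimeZero i F) (U : Link L → G) (t : ℕ) :
    F (shift i t (per U)) = F (ext L i (FS.xs (FS.sg L i) U (t : ZMod (L i)))) := by
  refine hF _ _ fun e he he2 => ?_
  obtain ⟨j, hj⟩ : ∃ j, e.2 = i.succAbove j := by
    rcases Fin.eq_self_or_eq_succAbove i e.2 with h | h
    · exact absurd h he2
    · exact h
  unfold ext shift per FS.xs
  rw [hj]
  simp only [Fin.insertNth_apply_succAbove, FS.sg_inl]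
  congr 2
  funext k
  rcases Fin.eq_self_or_eq_succAbove i k with rfl | ⟨m, rfl⟩
  · rw [FS.ins_same, Pi.add_apply, Pi.single_eq_same, he]
    simp
  · rw [FS.ins_sA, Pi.add_apply, Pi.single_eq_of_ne (Fin.succAbove_ne i m), add_zero]

lemma shift_zero {d : ℕ} (i : Fin d) (V : LinkZ d → G) : shift i 0 V = V := by
  unfold shift
  simp

lemma shift_cont (i : Fin d) (t : ℕ) : Continuous (shift i t : (LinkZ d → G) → LinkZ d → G) :=
  continuous_pi fun _ => continuous_apply _

/-- existence of infinite volume limits -/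
lemma exists_infVol (b : Fin d → Fin d → ℝ) : ∃ ν : Measure (LinkZ d → G), IsInfVol μ b ν := by
  have hP : ∀ j : ℕ, ∃ P : ProbabilityMeasure (LinkZ d → G),
      ∀ F : (LinkZ d → G) → ℝ, Continuous F →
        ∫ V, F V ∂(P : Measure (LinkZ d → G)) = expect μ b (fun _ => 2 * (j + 1)) F := by
    intro j
    have hper : Continuous (per : (Link (fun _ : Fin d => 2 * (j + 1)) → G) → LinkZ d → G) :=
      continuous_pi fun e => continuous_apply _
    have hint : Integrable (fun U : Link (fun _ : Fin d => 2 * (j + 1)) → G =>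
        Real.exp (-action b U)) (Measure.pi fun _ => μ) :=
      (FS.act_bm en_bm b).neg.exp.int
    have h1 := isProbabilityMeasure_tilted
      (f := fun U : Link (fun _ : Fin d => 2 * (j + 1)) → G => -action b U) hint
    refine ⟨⟨((Measure.pi fun _ => μ).tilted fun U : Link (fun _ : Fin d => 2 * (j + 1)) → G =>
      -action b U).map per, Measure.isProbabilityMeasure_map hper.aemeasurable⟩,
      fun F hF => ?_⟩
    show ∫ V, F V ∂(((Measure.pi fun _ => μ).tilted
      fun U : Link (fun _ : Fin d => 2 * (j + 1)) → G => -action b U).map per) = _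
    rw [integral_map hper.aemeasurable hF.aestronglyMeasurable, integral_tilted]
    unfold expect partFn
    rw [← integral_div]
    refine integral_congr_ae (Filter.Eventually.of_forall fun U => ?_)
    simp only [smul_eq_mul]
    ring
  choose P hP using hP
  obtain ⟨ν, s, hs, hlim⟩ := CompactSpace.tendsto_subseq P
  refine ⟨ν, ⟨inferInstance, s, hs.tendsto_atTop, fun F hF => ?_⟩⟩
  have h1 := (ProbabilityMeasure.tendsto_iff_forall_integral_tendsto.1 hlim)
    (BoundedContinuousFunction.mkOfCompact ⟨F, hF⟩)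
  simp only [Function.comp_apply, BoundedContinuousFunction.mkOfCompact_apply,
    ContinuousMap.coe_mk] at h1
  simpa only [hP _ F hF] using h1

/-- exponential clustering -/
lemma gap [μ.IsInvInvariant] (hd : 2 ≤ d) (b : Fin d → Fin d → ℝ) {A : ℕ} (hA : 0 < A)
    (hE : Even A) (hcr : Crit μ b A) {ν : Measure (LinkZ d → G)} (hν : IsInfVol μ b ν)
    (i : Fin d) {F F' : (LinkZ d → G) → ℝ} (hF : Continuous F) (hF' : Continuous F')
    (h0 : AtTimeZero i F) (h0' : AtTimeZero i F') {C C' : ℝ} (hC : ∀ V, |F V| ≤ C)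
    (hC' : ∀ V, |F' V| ≤ C') (t : ℕ) (ht : 1 ≤ t) :
    |∫ V, F V * F' (shift i t V) ∂ν - (∫ V, F V ∂ν) * ∫ V, F' V ∂ν| ≤
      2 * C * C' * (1 / 2) ^ ((t : ℝ) / A) := by
  obtain ⟨D, rfl⟩ : ∃ D, d = D + 1 := ⟨d - 1, by omega⟩
  obtain ⟨a, rfl⟩ := even_iff_exists_two_mul.1 hE
  have ha : 1 ≤ a := by omega
  have hC0 : 0 ≤ C := (abs_nonneg _).trans (hC fun _ => 1)
  have hC0' : 0 ≤ C' := (abs_nonneg _).trans (hC' fun _ => 1)
  have hH := ((crit_iff μ b _).1 hcr).toH ha
  obtain ⟨s, hs, hlim⟩ := hν.lim
  refine le_of_forall_pos_le_add fun ε hε => ?_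
  have hK : 0 < 2 * C * C' + 1 := by positivity
  obtain ⟨n0, hn0⟩ := FS.cluster_lim (μ := μ) en_bm en_wt b (by omega) ha hH ht
    (show 0 < ε / (2 * C * C' + 1) by positivity)
  have l1 : Tendsto (fun k => expect μ b (fun _ => 2 * (s k + 1))
      (fun V => F V * F' (shift i t V))) atTop (𝓝 (∫ V, F V * F' (shift i t V) ∂ν)) :=
    hlim _ (hF.mul (hF'.comp (shift_cont i t)))
  have l2 := hlim _ hF
  have l3 := hlim _ hF'
  have l4 := (l1.sub (l2.mul l3)).abs
  refine le_of_tendsto l4 ((hs.eventually_ge_atTop n0).mono fun k hk => ?_)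
  set L : Fin (D + 1) → ℕ := fun _ => 2 * (s k + 1) with hL
  have hm : ∀ {H : (LinkZ (D + 1) → G) → ℝ}, Continuous H → ∀ {c : ℝ}, (∀ V, |H V| ≤ c) →
      FS.BM fun x => H (ext L i x) := fun hH c hc =>
    ⟨hH.measurable.comp (ext_meas L i), c, fun x => hc _⟩
  have h1 := hn0 (s k + 1) (by omega) i L (fun _ => rfl) (hm hF hC) (hm hF' hC')
    (fun x => hC _) (fun x => hC' _) hC0 hC0'
  have e0 : ∀ {H : (LinkZ (D + 1) → G) → ℝ}, AtTimeZero i H → ∀ U : Link L → G,
      H (per U) = H (ext L i (FS.xs (FS.sg L i) U 0)) := by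
    intro H hH U
    have := ext_per (L := L) hH U 0
    rw [shift_zero] at this
    rw [this]
    simp
  have e1 : expect μ b L (fun V => F V * F' (shift i t V)) =
      FS.Ex μ en b L (fun U => F (ext L i (FS.xs (FS.sg L i) U 0)) *
        F' (ext L i (FS.xs (FS.sg L i) U (t : ZMod (L i))))) := by
    unfold expect FS.Ex
    simp only [e0 h0, ext_per h0']
    rfl
  have e2 : expect μ b L F = FS.Ex μ en b L (fun U => F (ext L i (FS.xs (FS.sg L i) U 0))) := by
    unfold expect FS.Ex
    simp only [e0 h0]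
    rfl
  have e3 : expect μ b L F' =
      FS.Ex μ en b L (fun U => F' (ext L i (FS.xs (FS.sg L i) U 0))) := by
    unfold expect FS.Ex
    simp only [e0 h0']
    rfl
  rw [e1, e2, e3]
  refine h1.trans ?_
  have h2 : 2 * C * C' * (ε / (2 * C * C' + 1)) ≤ ε := by
    rw [mul_div_assoc', div_le_iff₀ hK]
    have : 0 ≤ 2 * C * C' := by positivity
    nlinarith
  rw [mul_add]
  push_cast
  linarith

end bridge

theorem result {N d : ℕ} (hd : 2 ≤ d) (G : Subgroup (UU N)) (hG : IsClosed (G : Set (UU N)))
    [MeasurableSpace G] [BorelSpace G] (μ : Measure G) [IsProbabilityMeasure μ]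
    [μ.IsHaarMeasure] :
    (∀ b : Fin d → Fin d → ℝ, ∃ ν : Measure (LinkZ d → G), IsInfVol μ b ν) ∧
    (∀ (b : Fin d → Fin d → ℝ) (A : ℕ), 0 < A → Even A → Crit μ b A →
      (∀ ν : Measure (LinkZ d → G), IsInfVol μ b ν → ∀ i, Clusters ν i A) ∧
      ∀ k : ℕ, 1 ≤ k → Doubling μ b (2 ^ k * A) ((1 / 2) ^ 2 ^ k)) ∧
    IsOpen (Good (d := d) μ) ∧
    ∀ b : Fin d → Fin d → ℝ, OnDisjointPlanes b → b ∈ Good μ := by
  have : CompactSpace G := by
    have h1 : IsCompact (G : Set (UU N)) := hG.isCompact
    exact isCompact_iff_compactSpace.1 h1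
  have h00 : SecondCountableTopology (UU N) := TopologicalSpace.Subtype.secondCountableTopology _
  have : SecondCountableTopology G := TopologicalSpace.Subtype.secondCountableTopology _
  have := right_inv μ
  have := inv_inv' μ
  refine ⟨exists_infVol μ, fun b A hA hE hcr =>
    ⟨fun ν hν i F F' hF hF' h0 h0' C C' hC hC' t ht =>
      gap μ hd b hA hE hcr hν i hF hF' h0 h0' hC hC' t ht, fun k hk i L L' _ _ hL hL2 hD => ?_⟩,
    ?_, fun b hb => ?_⟩
  · obtain ⟨D, rfl⟩ : ∃ D, d = D + 1 := ⟨d - 1, by omega⟩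
    obtain ⟨a, rfl⟩ := even_iff_exists_two_mul.1 hE
    obtain ⟨m, rfl⟩ : ∃ m, k = m + 1 := ⟨k - 1, by omega⟩
    have h1 := FS.fin_size (μ := μ) en_bm en_wt b (by omega) (by omega)
      (((crit_iff μ b _).1 hcr).toH (by omega)) m i L L' (fun j => (hL j).1) (fun j => (hL j).2)
      hL2 hD.1 hD.2
    rw [partFn_eq, partFn_eq]
    constructor <;> linarith [h1.1, h1.2]
  · have e : Good (d := d) μ =
        ⋃ A ∈ {A : ℕ | 0 < A ∧ Even A}, {b | FS.CritF μ (en : G → ℝ) b A} := by
      ext b
      simp only [Good, Set.mem_ofPred_eq, Set.mem_iUnion, exists_prop, crit_iff, and_assoc]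
    rw [e]
    exact isOpen_biUnion fun A hA => FS.CritF_open en_bm hA.1
  · obtain ⟨A0, hA0⟩ := FS.crit_of_dis (μ := μ) en_bm en_wt (b := b) hb
      (show (0 : ℝ) < 1 / (6 * 5 ^ (d - 1)) by positivity)
    refine ⟨2 * (A0 + 1), by omega, even_two_mul _, (crit_iff μ b _).2 ?_⟩
    intro i L L' _ _ hi hi' hj
    exact hA0 _ (by omega) i L L' hi hi' hj

end

end Pool.Agent.Results.MP_7f377f_mp.GapCriterion
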