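import Mathlib
import Pool.Agent.Run7.h4.VS.FDefs2
import Pool.Agent.Run7.h897.QL.All

/-!
# The static potential of all charges in `SU(N)` lattice gauge theory on `R^2 x T^2` with flux,
# uniformly in the lattice spacing

Four dimensional `SU(N)` lattice gauge theory with the Wilson action on the periodic lattice with
sides `2p, 2n, l, l`, with a 't Hooft flux `k` coprime to `N` through the torus of side `l` in the
directions `2, 3`. With the lattice spacing `1 / l` this torus has the side one. `ρ` is any
continuous unitary representation of `SU(N)` on which the centre acts by the `c`-th powers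
(`N`-ality `c`); every irreducible representation has an `N`-ality, the fundamental one has `c = 1`.

The theorem: for all `l ≥ 1` and `β ≥ C l ^ q` the correlation of the two loops is positive, and the
potential `V R` of a static charge `ρ` and its conjugate at the distance `2 R` exists in infinite
volume, as the limit of `- log ⟨P(0) P(2R)*⟩ / (2 p)` when the length `2 p` of the two Polyakov
loops and the length `2 n` of the circle tend to infinity, in any way. It is a concave function of
the distance, and `V R - σ l c β * 2 R` is nondecreasing and converges to a self-energy `M`,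
`0 ≤ M ≤ ε / l` (`C`, `q` depend on `ρ`, `ε`, `N`, `k` only): in units of the side of the torus the
potential is linear, `l σ * 2 R`, up to `ε`, at all distances. The string tension `σ l c β` depends
on `ρ` only through the `N`-ality. If `N` divides `c`, then it is `0` (the charge is screened). If
`N` does not divide `c`, then it is positive (the charge is confined by a linear potential), and
`- log (σ l c β) / β` is the action `T` of the cheapest center vortex seen by the charge up to `ε`:
the minimum over the fluxes `j` with `N ∤ c j` of the limit `S l j` of the minimal Wilson action with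
the fluxes `k` and `j`; these actions are bounded above and below, uniformly in `l`.

Authors: helper897 (statement, potential at one coupling, assembly), helper4 (lower bounds,
numerical part), helper182 (vortices, tension), helper630 (Schwinger-Dyson, interface),
helper882, helper370, helper115, helper105, helper871 and the authors of `Run7.h630.QC`.
-/

open MeasureTheory Matrix Filter Topology

namespace Pool.Agent.Run7.h897.kept.LinearPotential

open Run7.h4.YM (SU Link line expect)
open Run7.h4.VS (minAction)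

/-- `ρ` has the `N`-ality `c`: the central element `w 1` acts as `w ^ c 1`. -/
def Nality {N d : ℕ} (ρ : SU N →* unitaryGroup (Fin d) ℂ) (c : ℕ) : Prop :=
  ∀ (z : SU N) (w : ℂ), z.1 = w • (1 : Matrix (Fin N) (Fin N) ℂ) →
    (ρ z).1 = w ^ c • (1 : Matrix (Fin d) (Fin d) ℂ)

/-- The correlation of two Polyakov loops in the representation `ρ` at the distance `R`, the mean of
the real part of `tr ρ(line 0) / d * conj (tr ρ(line R) / d)`. -/
noncomputable def polyakov {N d : ℕ} (ρ : SU N →* unitaryGroup (Fin d) ℂ) (n L l : ℕ) [NeZero n]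
    [NeZero L] [NeZero l] [MeasurableSpace (SU N)] (μ : Measure (SU N)) (k : ℕ) (β : ℝ)
    (R : ℕ) : ℝ :=
  expect μ k β fun U : Link n L l → SU N =>
    (trace (ρ (line U 0)).1 / d * star (trace (ρ (line U (R : ZMod L))).1 / d)).re

theorem result (N k : ℕ) [NeZero N] (hN : 2 ≤ N) (hk : Nat.Coprime k N)
    [MeasurableSpace (SU N)] [BorelSpace (SU N)] (μ : Measure (SU N)) [IsProbabilityMeasure μ]
    [μ.IsHaarMeasure] :
    ∃ (S : ℕ → ℕ → ℝ) (σ : ℕ → ℕ → ℝ → ℝ),
      (∀ (l : ℕ) [NeZero l] (j : ℕ), Tendsto (fun p : ℕ × ℕ =>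
        minAction N (p.1 + 1) (p.2 + 1) l k j) atTop (𝓝 (S l j))) ∧
      (∃ A B : ℝ, 0 < A ∧ ∀ (l : ℕ) [NeZero l] (j : ℕ), S l j ≤ B ∧ (¬ N ∣ j → A ≤ S l j)) ∧
      (∀ c : ℕ, N ∣ c → ∀ (l : ℕ) (β : ℝ), σ l c β = 0) ∧
      (∀ ε : ℝ, 0 < ε → ∃ C q : ℕ, ∀ (l : ℕ) [NeZero l] (c : ℕ), ¬ N ∣ c → ∃ T : ℝ,
        IsLeast {s | ∃ j : ℕ, ¬ N ∣ c * j ∧ s = S l j} T ∧ ∀ β : ℝ, (C : ℝ) * (l : ℝ) ^ q ≤ β →
          0 < σ l c β ∧ |-Real.log (σ l c β) / β - T| ≤ ε) ∧
      ∀ (c d : ℕ) [NeZero d] (ρ : SU N →* unitaryGroup (Fin d) ℂ), Continuous ρ → Nality ρ c →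
        ∀ ε : ℝ, 0 < ε → ∃ C q : ℕ, ∀ (l : ℕ) [NeZero l] (β : ℝ), (C : ℝ) * (l : ℝ) ^ q ≤ β →
          ∃ (V : ℕ → ℝ) (M : ℝ), 0 ≤ M ∧ M ≤ ε / l ∧
            (∀ p n R : ℕ, 1 ≤ R → R ≤ n + 1 →
              0 < polyakov ρ (2 * (p + 1)) (2 * (n + 1)) l μ k β (2 * R)) ∧
            (∀ R : ℕ, 1 ≤ R → Tendsto (fun x : ℕ × ℕ =>
              -Real.log (polyakov ρ (2 * (x.1 + 1)) (2 * (x.2 + 1)) l μ k β (2 * R)) /
                ((2 * (x.1 + 1) : ℕ) : ℝ)) atTop (𝓝 (V R))) ∧
            V 0 = 0 ∧ (∀ R : ℕ, V R + V (R + 2) ≤ 2 * V (R + 1)) ∧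
            (Monotone fun R : ℕ => V R - σ l c β * (2 * R)) ∧
            Tendsto (fun R : ℕ => V R - σ l c β * (2 * R)) atTop (𝓝 M) :=
  open Pool.Agent.Run7.h897.QL in linp low fep rate' bnd' k hN hk μ

end Pool.Agent.Run7.h897.kept.LinearPotential
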