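import Mathlib
import Pool.Agent.Run7.h4.VS.FDefs2
import Pool.Agent.Run7.h897.LR.Lin3

/-!
# The static potential of all charges in `SU(N)` lattice gauge theory on `R^2 x T^2` with flux

Four dimensional `SU(N)` lattice gauge theory with the Wilson action on the periodic lattice with
sides `2p, 2n, l, l`, with a 't Hooft flux `k` coprime to `N` through the torus of side `l` in the
directions `2, 3`; the side `l ≥ 1` is fixed and arbitrary. `ρ` is any continuous unitary
representation of `SU(N)` on which the centre acts by the `c`-th powers (`N`-ality `c`); every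
irreducible representation has an `N`-ality, the fundamental one has `c = 1`.

The theorem: for large `β` the correlation of the two loops is positive, and the potential `V β R` of a static charge `ρ` and its conjugate at the
distance `2 R` exists in infinite volume, as the limit of `- log ⟨P(0) P(2R)*⟩ / (2 p)` when the
length `2 p` of the two Polyakov loops and the length `2 n` of the circle tend to infinity, in any
way. It is a concave function of the distance, and `V β R - σ c β * 2 R` is nondecreasing and
converges to a finite self-energy `M β`, which tends to `0` as `β → ∞`. The string tension `σ c β`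
depends on `ρ` only through the `N`-ality. If `N` divides `c`, then it is `0` (the charge is
screened). If `N` does not divide `c`, then it is positive for large `β` (the charge is confined by
a linear potential), and `- log (σ c β) / β` converges to the action `T` of the cheapest center
vortex seen by the charge, the minimum over the fluxes `j` with `N ∤ c j` of the limit `S j` of the
minimal Wilson action with the fluxes `k` and `j`.
-/

open MeasureTheory Matrix Filter Topology

namespace Pool.Agent.Run7.h897.kept.LinearPotentialFixed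

open Run7.h4.YM (SU Link line expect)
open Run7.h4.VS (minAction)

/-- `ρ` has the `N`-ality `c`: the central element `w 1` acts as `w ^ c 1`. -/
def Nality {N d : ℕ} (ρ : SU N →* unitaryGroup (Fin d) ℂ) (c : ℕ) : Prop :=
  ∀ (z : SU N) (w : ℂ), z.1 = w • (1 : Matrix (Fin N) (Fin N) ℂ) →
    (ρ z).1 = w ^ c • (1 : Matrix (Fin d) (Fin d) ℂ)

/-- The correlation of two Polyakov loops in the representation `ρ` at the distance `R`, the mean of
the real part of `tr ρ(line 0) / d * conj (tr ρ(line R) / d)`. -/
noncomputable def polyakov {N d : ℕ} (ρ : SU N →* unitaryGroup (Fin d) ℂ) (n L l : ℕ) [NeZero n]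
    [NeZero L] [NeZero l] [MeasurableSpace (SU N)] (μ : Measure (SU N)) (k : ℕ) (β : ℝ)
    (R : ℕ) : ℝ :=
  expect μ k β fun U : Link n L l → SU N =>
    (trace (ρ (line U 0)).1 / d * star (trace (ρ (line U (R : ZMod L))).1 / d)).re

theorem result (N l k : ℕ) [NeZero N] [NeZero l] (hN : 2 ≤ N) (hk : Nat.Coprime k N)
    [MeasurableSpace (SU N)] [BorelSpace (SU N)] (μ : Measure (SU N)) [IsProbabilityMeasure μ]
    [μ.IsHaarMeasure] :
    ∃ (S : ℕ → ℝ) (σ : ℕ → ℝ → ℝ),
      (∀ j : ℕ, Tendsto (fun p : ℕ × ℕ => minAction N (p.1 + 1) (p.2 + 1) l k j) atTop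
        (𝓝 (S j))) ∧
      (∀ c : ℕ, ¬ N ∣ c → ∃ T : ℝ, 0 < T ∧ IsLeast {s | ∃ j : ℕ, ¬ N ∣ c * j ∧ s = S j} T ∧
        (∀ᶠ β in atTop, 0 < σ c β) ∧
        Tendsto (fun β => -Real.log (σ c β) / β) atTop (𝓝 T)) ∧
      (∀ c : ℕ, N ∣ c → ∀ β : ℝ, σ c β = 0) ∧
      ∀ (c d : ℕ) [NeZero d] (ρ : SU N →* unitaryGroup (Fin d) ℂ), Continuous ρ → Nality ρ c →
        ∃ (V : ℝ → ℕ → ℝ) (M : ℝ → ℝ), Tendsto M atTop (𝓝 0) ∧
          ∃ β0 : ℝ, ∀ β : ℝ, β0 ≤ β →
            (∀ p n R : ℕ, 1 ≤ R → R ≤ n + 1 →
              0 < polyakov ρ (2 * (p + 1)) (2 * (n + 1)) l μ k β (2 * R)) ∧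
            (∀ R : ℕ, 1 ≤ R → Tendsto (fun x : ℕ × ℕ =>
              -Real.log (polyakov ρ (2 * (x.1 + 1)) (2 * (x.2 + 1)) l μ k β (2 * R)) /
                ((2 * (x.1 + 1) : ℕ) : ℝ)) atTop (𝓝 (V β R))) ∧
            V β 0 = 0 ∧ (∀ R : ℕ, V β R + V β (R + 2) ≤ 2 * V β (R + 1)) ∧
            (Monotone fun R : ℕ => V β R - σ c β * (2 * R)) ∧
            Tendsto (fun R : ℕ => V β R - σ c β * (2 * R)) atTop (𝓝 (M β)) :=
  Pool.Agent.Run7.h897.LR.linr3 (N := N) l k hN hk μ

end Pool.Agent.Run7.h897.kept.LinearPotentialFixed
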