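import Mathlib
import Pool.Agent.Run7.h871.YM.Crit
import Pool.Agent.Run7.h871.YM.Pair
import Pool.Agent.Run7.h871.YM.Upper
import Pool.Agent.Run7.h182.Wl
import Pool.Agent.Run7.h182.UnqZ
import Pool.Agent.Run7.h182.ExtL
import Pool.Agent.Run7.h897.TW.Loc
import Pool.Agent.Run7.h897.TW.Fou

/-!
# Four-dimensional lattice Yang-Mills theory on `ℤ² × (ℤ/l)²` with 't Hooft flux: the value of the
mass gap at weak coupling

Wilson's lattice gauge theory with the gauge group `SU(N)`, `N ≥ 2`, on the four-dimensional lattice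
`ℤ² × (ℤ/l)²`, `l ≥ 1`, with 't Hooft flux `k`, coprime to `N`, through the compact plane. For all
large inverse couplings `β` the theory has a unique thermodynamic limit (along all even tori), and
its mass gap tends to `2 arsinh (sin (π / (l N)))` as `β → ∞`.
-/

open MeasureTheory Matrix Filter
open scoped Matrix.Norms.Frobenius Topology

namespace Pool.Agent.Run7.h897.kept.TwistedMassGap

set_option linter.unusedSectionVars false
set_option linter.style.haveILetI false

noncomputable section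

/-- The unitary group `U(N)`. -/
abbrev UU (N : ℕ) := Matrix.unitaryGroup (Fin N) ℂ

/-- The matrix of an element of a subgroup of `U(N)`. -/
def mt {N : ℕ} {G : Subgroup (UU N)} (g : G) : Matrix (Fin N) (Fin N) ℂ :=
  ((g : UU N) : Matrix (Fin N) (Fin N) ℂ)

/-- Sites of the torus `(ℤ/a) × (ℤ/b) × (ℤ/l)²`. -/
abbrev Site (a b l : ℕ) := (ZMod a × ZMod b) × (ZMod l × ZMod l)

/-- The four unit vectors. -/
def unit {a b l : ℕ} : Fin 4 → Site a b l := ![((1, 0), 0), ((0, 1), 0), (0, (1, 0)), (0, (0, 1))]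

/-- Links of the torus: base point and direction. -/
abbrev Link (a b l : ℕ) := Site a b l × Fin 4

/-- Sites of the lattice `ℤ² × (ℤ/l)²`. -/
abbrev SiteZ (l : ℕ) := (ℤ × ℤ) × (ZMod l × ZMod l)

/-- The four unit vectors. -/
def unitZ {l : ℕ} : Fin 4 → SiteZ l := ![((1, 0), 0), ((0, 1), 0), (0, (1, 0)), (0, (0, 1))]

/-- Links of the lattice `ℤ² × (ℤ/l)²`: base point and direction. -/
abbrev LinkZ (l : ℕ) := SiteZ l × Fin 4

section

variable {N a b l : ℕ} {G : Subgroup (UU N)}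

/-- The product of the link variables around the plaquette at `x` in the directions `i`, `j`. -/
def plaq (U : Link a b l → G) (x : Site a b l) (i j : Fin 4) : G :=
  U (x, i) * U (x + unit i, j) * (U (x + unit j, i))⁻¹ * (U (x, j))⁻¹

/-- 't Hooft's twist: `exp (2 π i / N) ^ k` on the plaquettes of the compact plane (directions `2`
and `3`) at one of its points, and `1` on all other plaquettes. -/
def twist (N k : ℕ) (y : ZMod l × ZMod l) (i j : Fin 4) : ℂ :=
  if i = 2 ∧ j = 3 ∧ y = 0 then Complex.exp (2 * Real.pi * Complex.I / N) ^ k else 1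

/-- The Wilson action with 't Hooft flux `k` through the compact plane. -/
def action [NeZero a] [NeZero b] [NeZero l] (k : ℕ) (U : Link a b l → G) : ℝ :=
  ∑ x : Site a b l, ∑ i : Fin 4, ∑ j : Fin 4,
    if i < j then (trace (1 - twist N k x.2 i j • mt (plaq U x i j))).re else 0

/-- The periodic extension of a configuration. -/
def per (U : Link a b l → G) : LinkZ l → G :=
  fun e => U (((((e.1.1.1 : ℤ) : ZMod a), ((e.1.1.2 : ℤ) : ZMod b)), e.1.2), e.2)

/-- The expectation of `F` in the theory on the torus at inverse coupling `β`, `μ` being the Haar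
measure. -/
def expect [MeasurableSpace G] (a b l k : ℕ) [NeZero a] [NeZero b] [NeZero l] (μ : Measure G)
    (β : ℝ) (F : (LinkZ l → G) → ℝ) : ℝ :=
  (∫ U : Link a b l → G, F (per U) * Real.exp (-(β * action k U)) ∂(Measure.pi fun _ => μ)) /
    ∫ U : Link a b l → G, Real.exp (-(β * action k U)) ∂(Measure.pi fun _ => μ)

/-- `ν` is the thermodynamic limit: the weak limit of the theories on all tori
`(ℤ/2p) × (ℤ/2q) × (ℤ/l)²` as `p → ∞` and `q → ∞` independently of each other. -/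
structure IsLimit [MeasurableSpace G] [NeZero l] (k : ℕ) (μ : Measure G) (β : ℝ)
    (ν : Measure (LinkZ l → G)) : Prop where
  prob : IsProbabilityMeasure ν
  lim : ∀ F : (LinkZ l → G) → ℝ, Continuous F →
    Tendsto (fun p : ℕ × ℕ => expect (2 * (p.1 + 1)) (2 * (p.2 + 1)) l k μ β F) atTop
      (𝓝 (∫ V, F V ∂ν))

/-- `F` is a local observable of the time slice zero (`0` is the direction of the time): it is
continuous and depends only on the links at time zero, of directions other than that of the time,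
within the distance `R`. -/
def IsObs (F : (LinkZ l → G) → ℝ) : Prop :=
  Continuous F ∧ ∃ R : ℕ, ∀ V V' : LinkZ l → G,
    (∀ e : LinkZ l, e.1.1.1 = 0 → e.2 ≠ 0 → |e.1.1.2| ≤ R → V e = V' e) → F V = F V'

/-- `F` is gauge invariant. -/
def IsGaugeInv (F : (LinkZ l → G) → ℝ) : Prop :=
  ∀ (h : SiteZ l → G) (V : LinkZ l → G),
    F (fun e => h e.1 * V e * (h (e.1 + unitZ e.2))⁻¹) = F V

/-- Translation of a configuration by `t` in the direction of the time. -/
def shift (t : ℕ) (V : LinkZ l → G) : LinkZ l → G :=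
  fun e => V (((e.1.1.1 + t, e.1.1.2), e.1.2), e.2)

/-- The truncated correlation of `F` and of the translate of `F'` by the time `t`. -/
def cov [MeasurableSpace G] (ν : Measure (LinkZ l → G)) (F F' : (LinkZ l → G) → ℝ) (t : ℕ) : ℝ :=
  ∫ V, F V * F' (shift t V) ∂ν - (∫ V, F V ∂ν) * ∫ V, F' V ∂ν

/-- The mass gap is at least `m`: exponential clustering with the rate `m`. -/
def HasGap [MeasurableSpace G] (ν : Measure (LinkZ l → G)) (m : ℝ) : Prop :=
  ∀ F F' : (LinkZ l → G) → ℝ, IsObs F → IsObs F' → ∀ C C' : ℝ,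
    (∀ V, |F V| ≤ C) → (∀ V, |F' V| ≤ C') → ∀ t : ℕ, 1 ≤ t →
      |cov ν F F' t| ≤ 2 * C * C' * Real.exp (-(m * t))

/-- The correlations of some gauge invariant observable do not decay like `exp (-m t)`, with any
constant. -/
def SlowerThan [MeasurableSpace G] (ν : Measure (LinkZ l → G)) (m : ℝ) : Prop :=
  ∃ F : (LinkZ l → G) → ℝ, IsObs F ∧ IsGaugeInv F ∧
    ∀ K : ℝ, ∃ t : ℕ, 1 ≤ t ∧ K * Real.exp (-(m * t)) < |cov ν F F t|

end

open Pool.Agent.Run7.h897 Pool.Agent.Run7.h871.TC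
open Pool.Agent.Run7.h630 (R2.zeta R2.TwPair)

/-- A Haar probability measure is invariant under right multiplications. -/
lemma right_inv {H : Type*} [Group H] [TopologicalSpace H] [IsTopologicalGroup H]
    [CompactSpace H] [MeasurableSpace H] [BorelSpace H] (μ : Measure H)
    [IsProbabilityMeasure μ] [μ.IsHaarMeasure] : μ.IsMulRightInvariant := by
  refine ⟨fun g => ?_⟩
  have h1 : IsProbabilityMeasure (Measure.map (fun x => x * g) μ) :=
    Measure.isProbabilityMeasure_map (measurable_mul_const g).aemeasurable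
  exact Measure.isHaarMeasure_eq_of_isProbabilityMeasure _ _

/-- A Haar probability measure is invariant under the inversion. -/
lemma inv_inv' {H : Type*} [Group H] [TopologicalSpace H] [IsTopologicalGroup H]
    [CompactSpace H] [MeasurableSpace H] [BorelSpace H] (μ : Measure H)
    [IsProbabilityMeasure μ] [μ.IsHaarMeasure] : μ.IsInvInvariant := by
  have hr := right_inv μ
  refine ⟨?_⟩
  have h1 : IsProbabilityMeasure μ.inv :=
    Measure.isProbabilityMeasure_map measurable_inv.aemeasurable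
  have h2 : μ.inv.IsMulLeftInvariant := inferInstance
  have h3 : μ.inv.IsHaarMeasure :=
    Measure.isHaarMeasure_of_isCompact_nonempty_interior μ.inv Set.univ isCompact_univ
      (by simp) (by simp) (by simp)
  exact Measure.isHaarMeasure_eq_of_isProbabilityMeasure _ _

section bridge

variable {N a b c l : ℕ} {G : Subgroup (UU N)} [NeZero N] [NeZero a] [NeZero b] [NeZero c]
  [NeZero l]

/-- the energies -/
def wG (G : Subgroup (UU N)) (l k : ℕ) (β : ℝ) : TW.Ens N l G where
  e1 g := β * (trace (1 - mt g)).re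
  e2 y g := β * (trace (1 - (if y = 0 then R2.zeta N ^ k else 1) • mt g)).re
  e0 m g := β * (trace (1 - R2.zeta N ^ m.val • mt g)).re

lemma action_eq (k : ℕ) (β : ℝ) (U : Link a b l → G) :
    Real.exp (-(β * action k U)) = TW.wS (wG G l k β) (fun _ => 0) U := by
  unfold TW.wS
  rw [← Real.exp_sum, ← Real.exp_add]
  congr 1
  have h1 : action k U = ∑ x : Site a b l, ((trace (1 - mt (plaq U x 0 1))).re +
      ((trace (1 - mt (plaq U x 0 2))).re + (trace (1 - mt (plaq U x 0 3))).re +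
      (trace (1 - mt (plaq U x 1 2))).re + (trace (1 - mt (plaq U x 1 3))).re +
      (trace (1 - (if x.2 = 0 then R2.zeta N ^ k else 1) • mt (plaq U x 2 3))).re)) := by
    unfold action
    refine Finset.sum_congr rfl fun x _ => ?_
    simp only [Fin.sum_univ_four]
    have t : ∀ i j : Fin 4, ¬ (i = 2 ∧ j = 3) → twist N k x.2 i j = 1 := by
      intro i j h
      unfold twist
      rw [if_neg fun h' => h ⟨h'.1, h'.2.1⟩]
    have t23 : twist N k x.2 2 3 = if x.2 = 0 then R2.zeta N ^ k else 1 := by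
      unfold twist R2.zeta
      simp
    rw [t 0 1 (by decide), t 0 2 (by decide), t 0 3 (by decide), t 1 2 (by decide),
      t 1 3 (by decide), t23]
    simp only [one_smul]
    have d01 : (0 : Fin 4) < 1 := by decide
    have d02 : (0 : Fin 4) < 2 := by decide
    have d03 : (0 : Fin 4) < 3 := by decide
    have d12 : (1 : Fin 4) < 2 := by decide
    have d13 : (1 : Fin 4) < 3 := by decide
    have d23 : (2 : Fin 4) < 3 := by decide
    have n10 : ¬ (1 : Fin 4) < 0 := by decide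
    have n20 : ¬ (2 : Fin 4) < 0 := by decide
    have n30 : ¬ (3 : Fin 4) < 0 := by decide
    have n21 : ¬ (2 : Fin 4) < 1 := by decide
    have n31 : ¬ (3 : Fin 4) < 1 := by decide
    have n32 : ¬ (3 : Fin 4) < 2 := by decide
    simp only [lt_irrefl, d01, d02, d03, d12, d13, d23, n10, n20, n30, n21, n31, n32, if_true,
      if_false]
    ring
  have h2 : ∑ x : Site a b l, β * ((trace (1 - mt (plaq U x 0 2))).re +
      (trace (1 - mt (plaq U x 0 3))).re + (trace (1 - mt (plaq U x 1 2))).re +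
      (trace (1 - mt (plaq U x 1 3))).re +
      (trace (1 - (if x.2 = 0 then R2.zeta N ^ k else 1) • mt (plaq U x 2 3))).re) =
      TW.nbE (wG G l k β) U := by
    unfold TW.nbE
    refine Finset.sum_congr rfl fun x _ => ?_
    show _ = β * _ + β * _ + β * _ + β * _ + β * _
    rw [mul_add, mul_add, mul_add, mul_add]
    rfl
  have h3 : ∑ x : Site a b l, β * (trace (1 - mt (plaq U x 0 1))).re =
      ∑ u : ZMod a × ZMod b, TW.bsE (wG G l k β) 0 U u := by
    rw [Fintype.sum_prod_type]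
    refine Finset.sum_congr rfl fun u _ => ?_
    unfold TW.bsE
    refine Finset.sum_congr rfl fun y _ => ?_
    show β * _ = β * (trace (1 - R2.zeta N ^ (0 : ZMod N).val • mt _)).re
    rw [ZMod.val_zero, pow_zero, one_smul]
    rfl
  rw [h1, Finset.mul_sum, ← h2, Finset.sum_neg_distrib, ← h3, ← neg_add, ← Finset.sum_add_distrib]
  congr 1
  refine Finset.sum_congr rfl fun x _ => ?_
  ring

variable [MeasurableSpace G] (μ : Measure G)

lemma expect_eq (k : ℕ) (β : ℝ) (F : (LinkZ l → G) → ℝ) :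
    expect a b l k μ β F = TW.XT μ (wG G l k β) (fun U : Link a b l → G => F (per U)) := by
  unfold expect TW.XT
  simp only [action_eq]

/-- extension of a slice configuration -/
def ext (x : TW.Ls b l → G) : LinkZ l → G := fun e =>
  Fin.cases (motive := fun _ => G) 1 (fun j => x ((((e.1.1.2 : ℤ) : ZMod b), e.1.2), j)) e.2

lemma ext_meas : Measurable (ext : (TW.Ls b l → G) → LinkZ l → G) := by
  refine measurable_pi_iff.2 fun e => ?_
  obtain ⟨v, i⟩ := e
  refine Fin.cases ?_ (fun j => ?_) i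
  · exact measurable_const
  · exact measurable_pi_apply _

/-- observables of the time slice zero -/
def Tz (F : (LinkZ l → G) → ℝ) : Prop :=
  ∀ V V' : LinkZ l → G, (∀ e : LinkZ l, e.1.1.1 = 0 → e.2 ≠ 0 → V e = V' e) → F V = F V'

lemma IsObs.tz {F : (LinkZ l → G) → ℝ} (hF : IsObs F) : Tz F := by
  obtain ⟨-, R, hR⟩ := hF
  exact fun V V' h => hR V V' fun e he he2 _ => h e he he2

lemma ext_per {F : (LinkZ l → G) → ℝ} (hF : Tz F) (U : Link a b l → G) (t : ℕ) :
    F (shift t (per U)) = F (ext (FS.xs (TW.sg a b l) U (t : ZMod a))) := by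
  refine hF _ _ fun e he he2 => ?_
  obtain ⟨⟨⟨x, y⟩, v⟩, i⟩ := e
  simp only at he he2
  subst he
  revert he2
  refine Fin.cases (fun h => absurd rfl h) (fun j _ => ?_) i
  unfold ext shift per
  simp only [zero_add, Int.cast_natCast]
  rfl

lemma shift_zero (V : LinkZ l → G) : shift 0 V = V := by
  funext e
  unfold shift
  simp

lemma ext_per0 {F : (LinkZ l → G) → ℝ} (hF : Tz F) (U : Link a b l → G) :
    F (per U) = F (ext (FS.xs (TW.sg a b l) U 0)) := by
  have := ext_per hF U 0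
  rw [shift_zero, Nat.cast_zero] at this
  exact this

lemma shift_cont (t : ℕ) : Continuous (shift t : (LinkZ l → G) → LinkZ l → G) :=
  continuous_pi fun _ => continuous_apply _

/-- locality -/
lemma ext_lc {F : (LinkZ l → G) → ℝ} {R : ℕ} (hR : ∀ V V' : LinkZ l → G,
    (∀ e : LinkZ l, e.1.1.1 = 0 → e.2 ≠ 0 → |e.1.1.2| ≤ R → V e = V' e) → F V = F V')
    (hc : 2 * R + 1 < b) : TW.Lc (((R + 1 : ℕ) : ZMod b)) fun x : TW.Ls b l → G => F (ext x) := by
  intro x x' h
  refine hR _ _ fun e he he2 hle => ?_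
  obtain ⟨⟨⟨y0, y⟩, v⟩, i⟩ := e
  simp only at he he2 hle
  revert he2
  refine Fin.cases (fun h => absurd rfl h) (fun j _ => ?_) i
  change x ((((y : ℤ) : ZMod b), v), j) = x' ((((y : ℤ) : ZMod b), v), j)
  refine h _ ?_
  change ((y : ℤ) : ZMod b) ≠ ((R + 1 : ℕ) : ZMod b)
  intro heq
  have h2 : (((R + 1 : ℕ) : ℤ) : ZMod b) = ((y : ℤ) : ZMod b) := by
    rw [heq]; push_cast; rfl
  have h3 := (ZMod.intCast_eq_intCast_iff_dvd_sub _ _ b).1 h2.symm
  have h4 := abs_le.1 hle
  have h5 := Int.le_of_dvd (by push_cast; linarith [h4.2]) h3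
  push_cast at h5
  have h6 : (2 * R + 1 : ℤ) < b := by exact_mod_cast hc
  linarith [h4.1]

variable [CompactSpace G] [SecondCountableTopology G] [BorelSpace G] [IsProbabilityMeasure μ]

/-- the law of the periodic extension -/
lemma exists_law (a b k : ℕ) [NeZero a] [NeZero b] (β : ℝ) (hb : (wG G l k β).Bd) :
    ∃ P : ProbabilityMeasure (LinkZ l → G), ∀ F : (LinkZ l → G) → ℝ, Continuous F →
      ∫ V, F V ∂(P : Measure (LinkZ l → G)) = expect a b l k μ β F := by
  have hper : Continuous (per : (Link a b l → G) → LinkZ l → G) :=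
    continuous_pi fun e => continuous_apply _
  have hint : Integrable (fun U : Link a b l → G =>
      Real.exp (-(β * action k U))) (Measure.pi fun _ => μ) := by
    simp only [action_eq]
    exact (TW.wS_bm hb _).int
  have h1 := isProbabilityMeasure_tilted
    (f := fun U : Link a b l → G => -(β * action k U)) hint
  refine ⟨⟨((Measure.pi fun _ => μ).tilted fun U : Link a b l → G =>
    -(β * action k U)).map per, Measure.isProbabilityMeasure_map hper.aemeasurable⟩,
    fun F hF => ?_⟩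
  show ∫ V, F V ∂(((Measure.pi fun _ => μ).tilted
    fun U : Link a b l → G => -(β * action k U)).map per) = _
  rw [integral_map hper.aemeasurable hF.aestronglyMeasurable, integral_tilted]
  unfold expect
  rw [← integral_div]
  refine integral_congr_ae (Filter.Eventually.of_forall fun U => ?_)
  simp only [smul_eq_mul]
  ring

/-- convergence of the expectations of the bounded local observables -/
def Cau (k : ℕ) (β : ℝ) : Prop :=
  ∀ (R : ℕ) (η : ℝ), 0 < η → ∃ n₀ : ℕ, ∀ F : (LinkZ l → G) → ℝ, Continuous F → (∀ V, |F V| ≤ 1) →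
    (∀ V V' : LinkZ l → G, (∀ e : LinkZ l, |e.1.1.1| ≤ R → |e.1.1.2| ≤ R → V e = V' e) →
      F V = F V') →
    ∀ p q p' q' : ℕ, n₀ ≤ p → n₀ ≤ q → n₀ ≤ p' → n₀ ≤ q' →
      |expect (2 * (p + 1)) (2 * (q + 1)) l k μ β F -
        expect (2 * (p' + 1)) (2 * (q' + 1)) l k μ β F| ≤ η

/-- existence of the thermodynamic limit -/
lemma exists_limit (k : ℕ) (β : ℝ) (hb : (wG G l k β).Bd) (hC : Cau (l := l) μ k β) :
    ∃ ν : Measure (LinkZ l → G), IsLimit k μ β ν := by
  have hP : ∀ p : ℕ × ℕ, ∃ P : ProbabilityMeasure (LinkZ l → G),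
      ∀ F : (LinkZ l → G) → ℝ, Continuous F →
        ∫ V, F V ∂(P : Measure (LinkZ l → G)) =
          expect (2 * (p.1 + 1)) (2 * (p.2 + 1)) l k μ β F :=
    fun p => exists_law μ _ _ k β hb
  choose P hP using hP
  have hint : ∀ {ι : Type} {f : Filter ι} {Q : ι → ProbabilityMeasure (LinkZ l → G)}
      {ν : ProbabilityMeasure (LinkZ l → G)}, Tendsto Q f (𝓝 ν) →
      ∀ F : (LinkZ l → G) → ℝ, Continuous F →
        Tendsto (fun i => ∫ V, F V ∂(Q i : Measure (LinkZ l → G))) f
          (𝓝 (∫ V, F V ∂(ν : Measure (LinkZ l → G)))) := by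
    intro ι f Q ν hQ F hF
    have h1 := (ProbabilityMeasure.tendsto_iff_forall_integral_tendsto.1 hQ)
      (BoundedContinuousFunction.mkOfCompact ⟨F, hF⟩)
    simpa only [BoundedContinuousFunction.mkOfCompact_apply, ContinuousMap.coe_mk] using h1
  obtain ⟨ν, s, hs, hlim⟩ := CompactSpace.tendsto_subseq fun j : ℕ => P (j, j)
  have hs' := hs.tendsto_atTop
  have hmain : Tendsto P atTop (𝓝 ν) := by
    refine tendsto_of_subseq_tendsto fun ns hns => ?_
    obtain ⟨ν', r, hr, hlim'⟩ := CompactSpace.tendsto_subseq fun j : ℕ => P (ns j)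
    refine ⟨r, ?_⟩
    have hns' : Tendsto (fun j => ns (r j)) atTop atTop := hns.comp hr.tendsto_atTop
    have heq : (ν' : Measure (LinkZ l → G)) = ν := by
      refine Run7.h182.Unq.ext_local fun F hF hloc => ?_
      obtain ⟨I, hI⟩ := hloc
      -- a bound
      obtain ⟨C, hCb⟩ : ∃ C : ℝ, 0 < C ∧ ∀ V, |F V| ≤ C := by
        obtain ⟨C, hC⟩ := isCompact_univ.exists_bound_of_continuousOn (f := F) hF.continuousOn
        exact ⟨|C| + 1, by positivity, fun V =>
          (hC V (Set.mem_univ _)).trans ((le_abs_self C).trans (by linarith))⟩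
      -- the window
      obtain ⟨R, hR⟩ : ∃ R : ℕ, ∀ e ∈ I, |e.1.1.1| ≤ (R : ℤ) ∧ |e.1.1.2| ≤ (R : ℤ) := by
        refine ⟨I.sup fun e => max e.1.1.1.natAbs e.1.1.2.natAbs, fun e he => ?_⟩
        have h1 := Finset.le_sup (f := fun e : LinkZ l => max e.1.1.1.natAbs e.1.1.2.natAbs) he
        simp only [max_le_iff] at h1
        rw [Int.abs_eq_natAbs, Int.abs_eq_natAbs]
        exact ⟨by exact_mod_cast h1.1, by exact_mod_cast h1.2⟩
      have hloc' : ∀ V V' : LinkZ l → G,
          (∀ e : LinkZ l, |e.1.1.1| ≤ R → |e.1.1.2| ≤ R → V e = V' e) → F V = F V' :=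
        fun V V' h => hI V V' fun e he => h e (hR e he).1 (hR e he).2
      have l1 := hint hlim F hF
      have l2 := hint hlim' F hF
      simp only [hP _ F hF, Function.comp_apply] at l1 l2
      refine eq_of_forall_dist_le fun ε hε => ?_
      obtain ⟨n₀, hn₀⟩ := hC R (ε / C) (div_pos hε hCb.1)
      have l3 := (l2.sub l1).abs
      rw [Real.dist_eq]
      refine le_of_tendsto l3 ?_
      have m1 := (tendsto_fst.comp (by rw [← prod_atTop_atTop_eq] at hns'; exact hns' :
        Tendsto (fun j => ns (r j)) atTop (atTop ×ˢ atTop))).eventually_ge_atTop n₀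
      have m2 := (tendsto_snd.comp (by rw [← prod_atTop_atTop_eq] at hns'; exact hns' :
        Tendsto (fun j => ns (r j)) atTop (atTop ×ˢ atTop))).eventually_ge_atTop n₀
      filter_upwards [m1, m2, hs'.eventually_ge_atTop n₀] with j j1 j2 j3
      have h3 := hn₀ (fun V => F V / C) (hF.div_const _) (fun V => by
        rw [abs_div, abs_of_pos hCb.1, div_le_one hCb.1]; exact hCb.2 V)
        (fun V V' h => by simp only [hloc' V V' h]) _ _ _ _ j1 j2 j3 j3
      have e1 : ∀ (a b : ℕ) [NeZero a] [NeZero b],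
          expect a b l k μ β (fun V => F V / C) = expect a b l k μ β F / C := by
        intro a b _ _
        have e2 : ∀ U : Link a b l → G, F (per U) / C * Real.exp (-(β * action k U)) =
            F (per U) * Real.exp (-(β * action k U)) / C := fun U => by ring
        unfold expect
        simp only [e2, integral_div]
        ring
      rw [e1, e1, ← sub_div, abs_div, abs_of_pos hCb.1, div_le_div_iff_of_pos_right hCb.1] at h3
      exact h3
    have heq' : ν' = ν := Subtype.ext heq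
    rw [← heq']
    exact hlim'
  refine ⟨ν, ⟨inferInstance, fun F hF => ?_⟩⟩
  have h1 := hint hmain F hF
  simpa only [hP _ F hF] using h1

lemma IsLimit.diag {k : ℕ} {β : ℝ} {ν : Measure (LinkZ l → G)} (hν : IsLimit k μ β ν)
    (F : (LinkZ l → G) → ℝ) (hF : Continuous F) :
    Tendsto (fun q : ℕ => expect (2 * (q + 1)) (2 * (q + 1)) l k μ β F) atTop
      (𝓝 (∫ V, F V ∂ν)) :=
  (hν.lim F hF).comp (tendsto_atTop_diagonal : Tendsto (fun q : ℕ => (q, q)) atTop atTop)

/-- exponential clustering in the infinite volume -/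
lemma gap [μ.IsInvInvariant] [μ.IsMulLeftInvariant] {k : ℕ} {β : ℝ} (hb : (wG G l k β).Bd)
    (hw : (wG G l k β).Sy) {z : ZMod N → G} (hz : TW.Cn (wG G l k β) z)
    {a : ℕ} (ha : 1 ≤ a) {s m : ℝ} (hs0 : 0 < s) (hs : s ≤ 1 / 2)
    (hsm : s ^ (1 / (2 * a) : ℝ) = Real.exp (-m))
    (hcr : TW.CrS μ (wG G l k β) a s) {ν : Measure (LinkZ l → G)} (hν : IsLimit k μ β ν) :
    HasGap ν m := by
  intro F F' hO hO' C C' hC hC' t ht
  unfold cov
  have hC0 : 0 ≤ C := (abs_nonneg _).trans (hC fun _ => 1)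
  have hC0' : 0 ≤ C' := (abs_nonneg _).trans (hC' fun _ => 1)
  have hFt := hO.tz
  have hFt' := hO'.tz
  obtain ⟨hFc, R, hR⟩ := hO
  obtain ⟨hFc', R', hR'⟩ := hO'
  have hrate : s ^ ((t : ℝ) / (2 * a)) = Real.exp (-(m * t)) := by
    rw [show (t : ℝ) / (2 * a) = 1 / (2 * a) * t by ring, Real.rpow_mul hs0.le, hsm,
      ← Real.exp_mul]
    congr 1
    ring
  refine le_of_forall_pos_le_add fun ε hε => ?_
  have hK : 0 < 2 * C * C' + 1 := by positivity
  obtain ⟨n0, hn0⟩ := TW.true_lim (μ := μ) hb hw hz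
    (fun ι _ _ p ε h1 h2 h3 h4 => TW.fourier_sum ι p ε h1 h2 h3 h4)
    (fun a b _ _ s hs => Pool.Agent.Run7.h630.R2.dc_range s hs) ha hs0 hs hcr ht
    (show 0 < ε / (2 * C * C' + 1) by positivity)
  have l1 := hν.diag μ (fun V => F V * F' (shift t V)) (hFc.mul (hFc'.comp (shift_cont t)))
  have l2 := hν.diag μ _ hFc
  have l3 := hν.diag μ _ hFc'
  have l4 := (l1.sub (l2.mul l3)).abs
  refine le_of_tendsto l4 ((eventually_ge_atTop (max n0 (R + R'))).mono fun q hq => ?_)
  have q1 : n0 ≤ q := (le_max_left _ _).trans hq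
  have q2 : R + R' ≤ q := (le_max_right _ _).trans hq
  set c := 2 * (q + 1) with hc
  have hm : ∀ {H : (LinkZ l → G) → ℝ}, Continuous H → ∀ {C : ℝ}, (∀ V, |H V| ≤ C) →
      FS.BM fun x : TW.Ls c l → G => H (ext x) := fun hH C hC =>
    ⟨hH.measurable.comp ext_meas, C, fun x => hC _⟩
  have hl : ∀ V V' : LinkZ l → G, (∀ e : LinkZ l, e.1.1.1 = 0 → e.2 ≠ 0 →
      |e.1.1.2| ≤ ((R + R' : ℕ) : ℤ) → V e = V' e) → F V = F V' := fun V V' h =>
    hR V V' fun e he he2 hle => h e he he2 (hle.trans (by push_cast; omega))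
  have hl' : ∀ V V' : LinkZ l → G, (∀ e : LinkZ l, e.1.1.1 = 0 → e.2 ≠ 0 →
      |e.1.1.2| ≤ ((R + R' : ℕ) : ℤ) → V e = V' e) → F' V = F' V' := fun V V' h =>
    hR' V V' fun e he he2 hle => h e he he2 (hle.trans (by push_cast; omega))
  have h1 := hn0 (q + 1) (by omega) c hc ((R + R' + 1 : ℕ) : ZMod c) (hm hFc hC) (hm hFc' hC')
    (ext_lc hl (by omega)) (ext_lc hl' (by omega)) (fun x => hC _) (fun x => hC' _) hC0 hC0'
  rw [expect_eq, expect_eq, expect_eq]
  simp only [ext_per0 hFt, ext_per0 hFt', ext_per hFt']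
  refine h1.trans ?_
  rw [hrate]
  have h2 : 2 * C * C' * (ε / (2 * C * C' + 1)) ≤ ε := by
    rw [mul_div_assoc', div_le_iff₀ hK]
    have : 0 ≤ 2 * C * C' := by positivity
    nlinarith
  rw [mul_add]
  linarith

/-- convergence of the expectations of the local observables -/
lemma cau [μ.IsInvInvariant] [μ.IsMulLeftInvariant] {k : ℕ} {β : ℝ} (hb : (wG G l k β).Bd)
    (hw : (wG G l k β).Sy) {z : ZMod N → G} (hz : TW.Cn (wG G l k β) z)
    {a : ℕ} (ha : 1 ≤ a) {s : ℝ} (hs0 : 0 < s) (hs : s ≤ 1 / 2)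
    (hcr : TW.CrS μ (wG G l k β) a s) : Cau (l := l) μ k β := by
  intro R η hη
  obtain ⟨n₀, hn₀⟩ := Run7.h182.Unq.XT_cauchyZ (μ := μ) hb hw hz ha hs0 hs hcr R hη
  refine ⟨n₀, fun F hF h1 hloc p q p' q' hp hq hp' hq' => ?_⟩
  rw [expect_eq, expect_eq]
  exact hn₀ F hF.measurable h1 hloc _ _ _ _ (by omega) (by omega) (by omega) (by omega)
    (even_two_mul _) (even_two_mul _) (even_two_mul _) (even_two_mul _)

end bridge

open Pool.Agent.Run7.h871.UP

/-- a function of the fibre loops in the time slice zero -/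
def Fz {N l : ℕ} [NeZero N] [NeZero l] (z : ℂ) (θ : ℝ) (c w : ℕ) (s β : ℝ)
    (V : LinkZ l → Pool.Agent.Run7.h630.R2.SU N) : ℝ :=
  Fg z θ c w s β fun i y => V (((0, (i : ℤ)), y), 2)

section

variable {N l : ℕ} [NeZero N] [NeZero l] (z : ℂ) (θ : ℝ) (c w : ℕ) (s β : ℝ)

lemma Fz_cont : Continuous (Fz (N := N) (l := l) z θ c w s β) := by
  unfold Fz
  exact (Fg_cont z θ c w s β).comp
    (continuous_pi fun i => continuous_pi fun y => continuous_apply _)

lemma Fz_obs : IsObs (Fz (N := N) (l := l) z θ c w s β) := by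
  refine ⟨Fz_cont z θ c w s β, w, fun V V' h => ?_⟩
  unfold Fz
  refine Fg_loc fun i hi => funext fun y => h _ rfl (by show (2 : Fin 4) ≠ 0; decide) ?_
  show |((i : ℕ) : ℤ)| ≤ (w : ℤ)
  rw [abs_of_nonneg (by positivity)]
  exact_mod_cast hi.le

lemma Fz_gauge : IsGaugeInv (Fz (N := N) (l := l) z θ c w s β) := by
  intro g V
  unfold Fz
  refine Eq.trans ?_ (Fg_gt z θ c w s β (fun i y => g ((0, (i : ℤ)), y))
    (fun i y => V (((0, (i : ℤ)), y), 2)))
  refine congrArg (Fg z θ c w s β) (funext fun i => funext fun y => ?_)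
  show g ((0, (i : ℤ)), y) * V (((0, (i : ℤ)), y), 2) *
    (g (((0, (i : ℤ)), y) + unitZ 2))⁻¹ = _
  have : (((0, (i : ℤ)), y) + unitZ 2 : (ℤ × ℤ) × (ZMod l × ZMod l)) =
      ((0, (i : ℤ)), y + (1, 0)) := by
    simp [unitZ]
  rw [this]

lemma Fz_per {d : ℕ} [NeZero d] (U : Link d d l → Pool.Agent.Run7.h630.R2.SU N) (t : ℕ) :
    Fz z θ c w s β (shift t (per U)) = Pool.Agent.Run7.h630.R2.Fo z θ c w s β U (t : ZMod d) := by
  rw [Fo_eq]
  unfold Fz shift per
  simp

lemma Fz_per0 {d : ℕ} [NeZero d] (U : Link d d l → Pool.Agent.Run7.h630.R2.SU N) :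
    Fz z θ c w s β (per U) = Pool.Agent.Run7.h630.R2.Fo z θ c w s β U 0 := by
  rw [Fo_eq]
  unfold Fz per
  simp

end

lemma wE_wG {N l k : ℕ} [NeZero N] (β : ℝ) :
    wE N l k β = wG (Pool.Agent.Run7.h630.R2.SU N) l k β := by
  unfold wE wG
  congr 1
  funext g
  show β * (trace (1 - (1 : ℂ) • mt g)).re = _
  rw [one_smul]

/-- the upper bound for `SU(N)` -/
theorem upper_SU {N l k : ℕ} [NeZero N] [NeZero l] (hN : 2 ≤ N) (hk : Nat.Coprime k N)
    [MeasurableSpace (Pool.Agent.Run7.h630.R2.SU N)] [BorelSpace (Pool.Agent.Run7.h630.R2.SU N)]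
    (μ : Measure (Pool.Agent.Run7.h630.R2.SU N)) [IsProbabilityMeasure μ] [μ.IsHaarMeasure]
    (hP : ∃ P Q : Pool.Agent.Run7.h630.R2.SU N, R2.TwPair N (R2.zeta N ^ k) P Q)
    {m : ℝ}
    (hm : 2 * Real.arsinh (Real.sin (Real.pi / (l * N))) < m) :
    ∃ β₀ : ℝ, ∀ β : ℝ, β₀ ≤ β → ∀ ν : Measure (LinkZ l → Pool.Agent.Run7.h630.R2.SU N),
      IsLimit k μ β ν → SlowerThan ν m := by
  haveI : CompactSpace (Pool.Agent.Run7.h630.R2.SU N) := by
    have h1 : IsCompact (Pool.Agent.Run7.h630.R2.SU N : Set (UU N)) :=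
      (Pool.Agent.Run7.h630.R2.SU_closed N).isCompact
    exact isCompact_iff_compactSpace.1 h1
  have h00 : SecondCountableTopology (UU N) := TopologicalSpace.Subtype.secondCountableTopology _
  haveI : SecondCountableTopology (Pool.Agent.Run7.h630.R2.SU N) :=
    TopologicalSpace.Subtype.secondCountableTopology _
  haveI := right_inv μ
  haveI := inv_inv' μ
  have hb : ∀ β : ℝ, (wG (Pool.Agent.Run7.h630.R2.SU N) l k β).Bd := fun β => by
    rw [← wE_wG]; exact wE_bd β
  have hw : ∀ β : ℝ, (wG (Pool.Agent.Run7.h630.R2.SU N) l k β).Sy := fun β => by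
    rw [← wE_wG]; exact wE_sy β
  obtain ⟨P, Q, hPQ⟩ := hP
  obtain ⟨m', hm1, hm2⟩ := exists_between hm
  obtain ⟨z, θ, c, w, s, q, hq, β0, hβ0⟩ := key μ hN hk hPQ hm1
  refine ⟨β0, fun β hβ ν hν => ⟨Fz z θ c w s β, Fz_obs z θ c w s β, Fz_gauge z θ c w s β, ?_⟩⟩
  obtain ⟨n0, hn0⟩ := hβ0 β hβ
  have hprob := hν.prob
  obtain ⟨F, hF⟩ : ∃ F : (LinkZ l → Pool.Agent.Run7.h630.R2.SU N) → ℝ, F = Fz z θ c w s β :=
    ⟨_, rfl⟩
  have hFc : Continuous F := by rw [hF]; exact Fz_cont z θ c w s β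
  have hFo : IsObs F := by rw [hF]; exact Fz_obs z θ c w s β
  have hF1 : ∀ V, |F V| ≤ 1 := by rw [hF]; exact fun V => Fg_le _ _ _ _ _ _ _
  -- the limits
  have hA : ∀ t : ℕ, Tendsto (fun i : ℕ => TW.XT μ (wG (Pool.Agent.Run7.h630.R2.SU N) l k β)
      (fun U : TW.Lk (2 * (i + 1)) (2 * (i + 1)) l → Pool.Agent.Run7.h630.R2.SU N =>
        Pool.Agent.Run7.h630.R2.Fo z θ c w s β U 0 * Pool.Agent.Run7.h630.R2.Fo z θ c w s β U
          (t : ZMod (2 * (i + 1))))) atTop (𝓝 (∫ V, F V * F (shift t V) ∂ν)) := by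
    intro t
    have h1 := hν.diag μ (fun V => F V * F (shift t V)) (hFc.mul (hFc.comp (shift_cont t)))
    simp only [expect_eq] at h1
    simp only [hF, Fz_per, Fz_per0] at h1
    rw [hF]
    exact h1
  have hA1 : Tendsto (fun i : ℕ => TW.XT μ (wG (Pool.Agent.Run7.h630.R2.SU N) l k β)
      (fun U : TW.Lk (2 * (i + 1)) (2 * (i + 1)) l → Pool.Agent.Run7.h630.R2.SU N =>
        Pool.Agent.Run7.h630.R2.Fo z θ c w s β U 0)) atTop (𝓝 (∫ V, F V ∂ν)) := by
    have h1 := hν.diag μ F hFc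
    simp only [expect_eq] at h1
    simp only [hF, Fz_per0] at h1
    rw [hF]
    exact h1
  have hx : ∀ (i : ℕ) (t : ℕ)
      (U : TW.Lk (2 * (i + 1)) (2 * (i + 1)) l → Pool.Agent.Run7.h630.R2.SU N),
      Pool.Agent.Run7.h630.R2.Fo z θ c w s β U (t : ZMod (2 * (i + 1))) =
        F (ext (FS.xs (TW.sg (2 * (i + 1)) (2 * (i + 1)) l) U (t : ZMod (2 * (i + 1))))) := by
    intro i t U
    rw [← Fz_per, ← hF]
    exact ext_per hFo.tz U t
  have hx0 : ∀ (i : ℕ)
      (U : TW.Lk (2 * (i + 1)) (2 * (i + 1)) l → Pool.Agent.Run7.h630.R2.SU N),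
      Pool.Agent.Run7.h630.R2.Fo z θ c w s β U 0 =
        F (ext (FS.xs (TW.sg (2 * (i + 1)) (2 * (i + 1)) l) U 0)) := by
    intro i U
    have := hx i 0 U
    rwa [Nat.cast_zero] at this
  obtain ⟨v, hv⟩ : ∃ v, v = ∫ V, F V ∂ν := ⟨_, rfl⟩
  obtain ⟨A, hAd⟩ : ∃ A : ℕ → ℝ, A = fun t => ∫ V, F V * F (shift t V) ∂ν := ⟨_, rfl⟩
  have hA' : ∀ t, ∫ V, F V * F (shift t V) ∂ν = A t := fun t => by rw [hAd]
  simp only [hA', ← hv] at hA hA1
  have hlc : ∀ u u' : ℕ, 1 ≤ u → 1 ≤ u' →
      (A (u + u') - v ^ 2) ^ 2 ≤ (A (2 * u) - v ^ 2) * (A (2 * u') - v ^ 2) := by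
    intro u u' hu hu'
    refine Pool.Agent.Run7.h871.LC.lcT_lim (μ := μ) (hb β) (hw β) (M := fun i => i + 1)
      (c := fun i => 2 * (i + 1)) (b := fun i => 2 * (i + 1))
      (tendsto_atTop_mono (fun i => Nat.le_succ i) tendsto_id) (fun i => rfl)
      (F := fun i x => F (ext x))
      (fun i => ⟨hFc.measurable.comp ext_meas, 1, fun x => hF1 _⟩) (fun t ht => ?_) ?_ hu hu'
    · have := hA t
      simp only [hx, hx0] at this
      exact this
    · simp only [hx0] at hA1
      exact hA1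
  have hev := eventually_ge_atTop n0
  have hc2 : q ≤ A 2 - v ^ 2 := by
    refine ge_of_tendsto ((hA 2).sub (hA1.pow 2)) (hev.mono fun i hi => ?_)
    have := (hn0 (2 * (i + 1)) (by omega) (even_two_mul _)).1
    rw [wE_wG] at this
    exact this
  have hc4 : Real.exp (-(2 * m')) * (A 2 - v ^ 2) ≤ A 4 - v ^ 2 := by
    refine le_of_tendsto_of_tendsto (((hA 2).sub (hA1.pow 2)).const_mul _)
      ((hA 4).sub (hA1.pow 2)) (hev.mono fun i hi => ?_)
    have := (hn0 (2 * (i + 1)) (by omega) (even_two_mul _)).2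
    rw [wE_wG] at this
    exact this
  intro K
  by_contra hK
  push Not at hK
  have h1 := Pool.Agent.Run7.h871.LC.rate_le (c := fun t => A t - v ^ 2) hlc
    (m := m) (m' := m') (C := K) (lt_of_lt_of_le hq hc2) hc4 (fun t ht => by
      have := hK t ht
      unfold cov at this
      rw [← hF, hA', ← hv, ← sq] at this
      exact this)
  linarith

/-- The statement for given auxiliary facts. -/
theorem main {N l k : ℕ} [NeZero N] [NeZero l] (hN : 2 ≤ N) (hk : Nat.Coprime k N)
    (G : Subgroup (UU N)) (hG : ∀ g : UU N, g ∈ G ↔ det (g : Matrix (Fin N) (Fin N) ℂ) = 1)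
    [MeasurableSpace G] [BorelSpace G] (μ : Measure G) [IsProbabilityMeasure μ]
    [μ.IsHaarMeasure]
    (hP : ∃ P Q : Pool.Agent.Run7.h630.R2.SU N, R2.TwPair N (R2.zeta N ^ k) P Q) {m m' : ℝ}
    (hm : m < 2 * Real.arsinh (Real.sin (Real.pi / (l * N))))
    (hm' : 2 * Real.arsinh (Real.sin (Real.pi / (l * N))) < m') :
    ∃ β₀ : ℝ, ∀ β : ℝ, β₀ ≤ β → ∃ ν : Measure (LinkZ l → G),
      IsLimit k μ β ν ∧ HasGap ν m ∧ SlowerThan ν m' := by
  have hGeq : G = Pool.Agent.Run7.h630.R2.SU N := by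
    ext g
    exact hG g
  subst hGeq
  haveI : CompactSpace (Pool.Agent.Run7.h630.R2.SU N) := by
    have h1 : IsCompact (Pool.Agent.Run7.h630.R2.SU N : Set (UU N)) :=
      (Pool.Agent.Run7.h630.R2.SU_closed N).isCompact
    exact isCompact_iff_compactSpace.1 h1
  have h00 : SecondCountableTopology (UU N) := TopologicalSpace.Subtype.secondCountableTopology _
  haveI : SecondCountableTopology (Pool.Agent.Run7.h630.R2.SU N) :=
    TopologicalSpace.Subtype.secondCountableTopology _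
  haveI := right_inv μ
  haveI := inv_inv' μ
  have hb : ∀ β : ℝ, (wG (Pool.Agent.Run7.h630.R2.SU N) l k β).Bd := fun β => by
    rw [← wE_wG]; exact wE_bd β
  have hw : ∀ β : ℝ, (wG (Pool.Agent.Run7.h630.R2.SU N) l k β).Sy := fun β => by
    rw [← wE_wG]; exact wE_sy β
  obtain ⟨β1, hβ1⟩ := upper_SU (l := l) hN hk μ hP hm'
  obtain ⟨P, Q, hPQ⟩ := hP
  have hr0 : 0 < TW.rate l N := by
    unfold TW.rate
    have := Real.arsinh_pos_iff.2 (TW.sin_pos' hN l)
    linarith
  obtain ⟨m1, hm1, hm2⟩ := exists_between (show max m 0 < TW.rate l N from max_lt hm hr0)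
  have hm0 : 0 < m1 := (le_max_right _ _).trans_lt hm1
  obtain ⟨a0, ha0, s, hs0, hs, hsm, β2, hβ2⟩ := crit μ hN l hPQ hm0 hm2
  refine ⟨max β1 β2, fun β hβ => ?_⟩
  have hcr := hβ2 β ((le_max_right _ _).trans hβ)
  rw [wE_wG] at hcr
  have hz : TW.Cn (wG (Pool.Agent.Run7.h630.R2.SU N) l k β) (zc N) := by
    have := zc_cn (N := N) (l := l) (k := k) β
    rwa [wE_wG] at this
  obtain ⟨ν, hν⟩ := exists_limit μ k β (hb β) (cau μ (hb β) (hw β) hz ha0 hs0 hs hcr)
  refine ⟨ν, hν, ?_, hβ1 β ((le_max_left _ _).trans hβ) ν hν⟩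
  have hgap := gap μ (hb β) (hw β) hz ha0 hs0 hs hsm hcr hν
  intro F F' hO hO' C C' hC hC' t ht
  refine (hgap F F' hO hO' C C' hC hC' t ht).trans ?_
  have hC0 : 0 ≤ C := (abs_nonneg _).trans (hC fun _ => 1)
  have hC0' : 0 ≤ C' := (abs_nonneg _).trans (hC' fun _ => 1)
  apply mul_le_mul_of_nonneg_left _ (by positivity)
  apply Real.exp_le_exp.2
  have h1 : m ≤ m1 := (le_max_left _ _).trans hm1.le
  have h2 : (0 : ℝ) ≤ t := Nat.cast_nonneg t
  nlinarith

/-- **The mass gap of the four-dimensional lattice Yang-Mills theory with 't Hooft flux at weak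
coupling.** Let `N ≥ 2`, `l ≥ 1`, `k` coprime to `N` and `G = SU(N)`, and consider Wilson's lattice
gauge theory at the inverse coupling `β` on `ℤ² × (ℤ/l)²` with the flux `k` through the compact
plane. For all `m < 2 arsinh (sin (π / (l N))) < m'` there is `β₀` such that for all `β ≥ β₀` the
theory has a thermodynamic limit, its mass gap is at least `m`, and it is not larger than `m'`. -/
theorem result {N l k : ℕ} [NeZero l] (hN : 2 ≤ N) (hk : Nat.Coprime k N) (G : Subgroup (UU N))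
    (hG : ∀ g : UU N, g ∈ G ↔ det (g : Matrix (Fin N) (Fin N) ℂ) = 1)
    [MeasurableSpace G] [BorelSpace G] (μ : Measure G) [IsProbabilityMeasure μ]
    [μ.IsHaarMeasure] (m m' : ℝ) (hm : m < 2 * Real.arsinh (Real.sin (Real.pi / (l * N))))
    (hm' : 2 * Real.arsinh (Real.sin (Real.pi / (l * N))) < m') :
    ∃ β₀ : ℝ, ∀ β : ℝ, β₀ ≤ β → ∃ ν : Measure (LinkZ l → G),
      IsLimit k μ β ν ∧ HasGap ν m ∧ SlowerThan ν m' := by
  haveI : NeZero N := ⟨by omega⟩
  exact main hN hk G hG μ (Pool.Agent.Run7.h871.TP.exists_twPair N hk) hm hm'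

end

end Pool.Agent.Run7.h897.kept.TwistedMassGap
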